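import Pool.Agent.J4.H51.JC.Dim4
import Pool.Agent.Q134.SV.Cls

/-!
Pseudo-manifolds: one positive cycle is sufficient.
-/

set_option autoImplicit false

open scoped Classical

namespace Pool.Agent.J4.H51.JC

open Pool.Agent.W907.SG (W cox)
open Pool.Agent.Q134.SV Pool.Agent.N13.QC

variable {V : Type} [Fintype V] {G : SimpleGraph V} {n : ℕ}

theorem isCyc_comb {a b : (Fin n → V) → ℝ} (ha : IsCyc n G a) (hb : IsCyc n G b) (r t : ℝ) :
    IsCyc n G (fun v => r * a v + t * b v) where
  alt v i j hij := by rw [ha.alt v i j hij, hb.alt v i j hij]; ring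
  supp v hv i j hij := by
    by_cases h : a v = 0
    · refine hb.supp v (fun h' => hv ?_) i j hij
      simp [h, h']
    · exact ha.supp v h i j hij
  cyc v i := by
    rw [Finset.sum_add_distrib, ← Finset.mul_sum, ← Finset.mul_sum, ha.cyc, hb.cyc]
    ring

theorem pos_of_one (hG : OPM n G) {a : (Fin n → V) → ℝ} (ha : IsCyc n G a)
    (h : ∃ c, Good G n c ∧ pair (gen G) a c ≠ 0) : Pos n G := by
  obtain ⟨c, hc, hp⟩ := h
  have hane : a ≠ 0 := by
    rintro rfl
    apply hp
    simp [pair]
  intro b hb hbne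
  refine ⟨c, hc, fun h0 => ?_⟩
  obtain ⟨v, hv⟩ := hG.exists_clique
  have hav := hG.full a ha hane v hv
  have hbv := hG.full b hb hbne v hv
  have hcomb : (fun w => b v * a w + (- a v) * b w) = 0 := by
    by_contra hne
    exact hG.full _ (isCyc_comb ha hb _ _) hne v hv (by ring)
  apply hp
  have h1 : b v * pair (gen G) a c = a v * pair (gen G) b c := by
    unfold pair
    rw [Finset.mul_sum, Finset.mul_sum]
    refine Finset.sum_congr rfl fun w _ => ?_
    have := congrFun hcomb w
    simp only [Pi.zero_apply] at this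
    linear_combination (c (Fin.partialProd (gen G ∘ w))) * this
  rw [h0, mul_zero] at h1
  rcases mul_eq_zero.1 h1 with h2 | h2
  · exact absurd h2 hbv
  · exact h2

end Pool.Agent.J4.H51.JC
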