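import Pool.Agent.J4.H51.JC.Key
import Pool.Agent.Q134.SV.Cyc

/-!
The bounded cochain of an alternating function on the simplices which is a cocycle on all joins.
-/

set_option autoImplicit false

open scoped Classical

namespace Pool.Agent.J4.H51.JC

open Pool.Agent.W907.SG (W cox)
open Pool.Agent.Q134.SV

theorem cobd_cobd {X : Type} : ∀ (n : ℕ) (b : (Fin n → X) → ℝ) (g : Fin (n + 2) → X),
    cobd (cobd b) g = 0
  | 0, b, g => by
      unfold cobd
      simp only [Fin.sum_univ_succ, Finset.univ_eq_empty, Finset.sum_empty]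
      have : ∀ u v : Fin 0 → X, b u = b v := fun u v => by rw [Subsingleton.elim u v]
      simp
      rw [this (((g ∘ Fin.succ) ∘ Fin.succ)) ((g ∘ Fin.succAbove 1) ∘ Fin.succ)]
      ring
  | n + 1, b, g => by
      obtain ⟨x, g', rfl⟩ : ∃ x g', g = (Fin.cons x g' : Fin (n + 3) → X) :=
        ⟨g 0, Fin.tail g, (Fin.cons_self_tail g).symm⟩
      rw [cobd_cons]
      have h1 : (fun m : Fin (n + 1) → X => cobd b (Fin.cons x m)) =
          fun m => b m - cobd (fun m' => b (Fin.cons x m')) m := by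
        funext m
        exact cobd_cons b x m
      rw [h1, cobd_sub, cobd_cobd n]
      ring

section alt

variable {V : Type} [Fintype V] {n : ℕ}

/-- alternating functions -/
def Alt (ψ : (Fin n → V) → ℝ) : Prop :=
  ∀ (v : Fin n → V) (i j : Fin n), i ≠ j → ψ (v ∘ Equiv.swap i j) = - ψ v

omit [Fintype V] in
theorem Alt.self {ψ : (Fin n → V) → ℝ} (h : Alt ψ) (v : Fin n → V) {i j : Fin n} (hij : i ≠ j)
    (hv : v i = v j) : ψ v = 0 := alt_self h v hij hv

/-- the alternating form on functions -/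
noncomputable def evA (ψ : (Fin n → V) → ℝ) (h : Alt ψ) : (V → ℝ) [⋀^Fin n]→ₗ[ℝ] ℝ :=
  { (∑ v : Fin n → V, ψ v • (MultilinearMap.mkPiAlgebra ℝ (Fin n) ℝ).compLinearMap
      (fun i => LinearMap.proj (v i)) : MultilinearMap ℝ (fun _ : Fin n => V → ℝ) ℝ) with
    map_eq_zero_of_eq' := by
      intro u i j hu hij
      simp only [MultilinearMap.toFun_eq_coe, FunLike.coe_sum, Finset.sum_apply,
        smul_apply, MultilinearMap.compLinearMap_apply,
        MultilinearMap.mkPiAlgebra_apply, LinearMap.proj_apply, smul_eq_mul]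
      have h1 : ∑ v : Fin n → V, ψ v * ∏ k, u k (v k) =
          ∑ v : Fin n → V, - (ψ v * ∏ k, u k (v k)) := by
        rw [← Equiv.sum_comp (Equiv.arrowCongr (Equiv.swap i j) (Equiv.refl V))]
        refine Finset.sum_congr rfl fun v _ => ?_
        have e1 : (Equiv.arrowCongr (Equiv.swap i j) (Equiv.refl V)) v = v ∘ Equiv.swap i j := by
          funext l
          simp [Equiv.arrowCongr]
        rw [e1, h v i j hij, neg_mul]
        congr 2
        rw [← Equiv.prod_comp (Equiv.swap i j)]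
        refine Finset.prod_congr rfl fun k _ => ?_
        simp only [Function.comp_apply, Equiv.swap_apply_self]
        have e2 : u (Equiv.swap i j k) = u k := by
          rcases eq_or_ne k i with rfl | hk
          · rw [Equiv.swap_apply_left, hu]
          · rcases eq_or_ne k j with rfl | hk'
            · rw [Equiv.swap_apply_right, hu]
            · rw [Equiv.swap_apply_of_ne_of_ne hk hk']
        rw [e2]
      rw [Finset.sum_neg_distrib] at h1
      linarith }

theorem evA_apply (ψ : (Fin n → V) → ℝ) (h : Alt ψ) (u : Fin n → V → ℝ) :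
    evA ψ h u = ∑ v : Fin n → V, (∏ k, u k (v k)) * ψ v := by
  change (∑ v : Fin n → V, ψ v • (MultilinearMap.mkPiAlgebra ℝ (Fin n) ℝ).compLinearMap
      (fun i => LinearMap.proj (v i)) : MultilinearMap ℝ (fun _ : Fin n => V → ℝ) ℝ) u = _
  simp only [FunLike.coe_sum, Finset.sum_apply,
        smul_apply, MultilinearMap.compLinearMap_apply,
        MultilinearMap.mkPiAlgebra_apply, LinearMap.proj_apply, smul_eq_mul]
  exact Finset.sum_congr rfl fun v _ => mul_comm _ _

/-- the barycentre -/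
noncomputable def bary (T : Finset V) : V → ℝ := fun x => if x ∈ T then (T.card : ℝ)⁻¹ else 0

theorem sum_bary {T : Finset V} (hT : T.Nonempty) : ∑ x, bary T x = 1 := by
  unfold bary
  rw [← Finset.sum_filter, Finset.filter_mem_eq_inter, Finset.univ_inter, Finset.sum_const,
    nsmul_eq_mul]
  have : (T.card : ℝ) ≠ 0 := by
    rw [Nat.cast_ne_zero]
    exact Finset.card_ne_zero.2 hT
  exact mul_inv_cancel₀ this

theorem sum_bary_le (T : Finset V) : ∑ x, |bary T x| ≤ 1 := by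
  have h0 : ∀ x, |bary T x| = bary T x := by
    intro x
    apply abs_of_nonneg
    unfold bary
    split_ifs <;> positivity
  simp only [h0]
  rcases T.eq_empty_or_nonempty with h | h
  · subst h; simp [bary]
  · rw [sum_bary h]

omit [Fintype V] in
theorem bary_ne {T : Finset V} {x : V} (h : bary T x ≠ 0) : x ∈ T := by
  unfold bary at h
  by_contra hn
  rw [if_neg hn] at h
  exact h rfl

omit [Fintype V] in
theorem bary_empty : bary (∅ : Finset V) = 0 := by
  funext x; simp [bary]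

theorem evA_bound {ψ : (Fin n → V) → ℝ} (h : Alt ψ) {M : ℝ} (hM : ∀ v, |ψ v| ≤ M) (hM0 : 0 ≤ M)
    (σ : Fin n → Finset V) : |evA ψ h (bary ∘ σ)| ≤ M := by
  rw [evA_apply]
  calc |∑ v : Fin n → V, (∏ k, (bary ∘ σ) k (v k)) * ψ v|
      ≤ ∑ v : Fin n → V, |(∏ k, (bary ∘ σ) k (v k)) * ψ v| := Finset.abs_sum_le_sum_abs _ _
    _ ≤ ∑ v : Fin n → V, (∏ k, |bary (σ k) (v k)|) * M := by
        refine Finset.sum_le_sum fun v _ => ?_
        rw [abs_mul, Finset.abs_prod]
        exact mul_le_mul_of_nonneg_left (hM v) (Finset.prod_nonneg fun _ _ => abs_nonneg _)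
    _ = (∏ k, ∑ x, |bary (σ k) x|) * M := by
        rw [← Finset.sum_mul, Finset.prod_univ_sum]
        simp
    _ ≤ 1 * M := by
        refine mul_le_mul_of_nonneg_right ?_ hM0
        exact Finset.prod_le_one (fun _ _ => Finset.sum_nonneg fun _ _ => abs_nonneg _)
          fun k _ => sum_bary_le _
    _ = M := one_mul M

/-- the local term -/
noncomputable def FF (ψ : (Fin n → V) → ℝ) (h : Alt ψ) (σ : Fin (n + 1) → Finset V) : ℝ :=
  cobd (fun τ : Fin n → Finset V => evA ψ h (bary ∘ τ)) σ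

theorem FF_of_eq {ψ : (Fin n → V) → ℝ} (h : Alt ψ) {σ : Fin (n + 1) → Finset V}
    {i j : Fin (n + 1)} (hij : i ≠ j) (hσ : σ i = σ j) : FF ψ h σ = 0 := by
  unfold FF cobd
  have h1 := AlternatingMap.neg_one_pow_smul_map_removeNth_add_eq_zero_of_eq (evA ψ h)
    (v := bary ∘ σ) (i := i) (j := j) (by simp [hσ]) hij
  rw [← Finset.add_sum_erase _ _ (Finset.mem_univ i),
    ← Finset.add_sum_erase _ _ (Finset.mem_erase.2 ⟨hij.symm, Finset.mem_univ j⟩), ← add_assoc]
  have h2 : ∀ k ∈ (Finset.univ.erase i).erase j,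
      (-1 : ℝ) ^ (k : ℕ) * evA ψ h (bary ∘ (σ ∘ k.succAbove)) = 0 := by
    intro k hk
    rw [Finset.mem_erase, Finset.mem_erase] at hk
    obtain ⟨i', hi'⟩ := Fin.exists_succAbove_eq (x := i) (y := k) hk.2.1.symm
    obtain ⟨j', hj'⟩ := Fin.exists_succAbove_eq (x := j) (y := k) hk.1.symm
    rw [(evA ψ h).map_eq_zero_of_eq (i := i') (j := j') _ (by simp [hi', hj', hσ]) (by
      rintro rfl
      exact hij (hi'.symm.trans hj')), mul_zero]
  rw [Finset.sum_eq_zero h2, add_zero]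
  simp only [zsmul_eq_mul, Int.cast_pow, Int.cast_neg, Int.cast_one] at h1
  exact h1

theorem FF_bound {ψ : (Fin n → V) → ℝ} (h : Alt ψ) {M : ℝ} (hM : ∀ v, |ψ v| ≤ M) (hM0 : 0 ≤ M)
    (σ : Fin (n + 1) → Finset V) : |FF ψ h σ| ≤ (n + 1) * M := by
  unfold FF cobd
  calc |∑ k : Fin (n + 1), (-1 : ℝ) ^ (k : ℕ) * evA ψ h (bary ∘ (σ ∘ k.succAbove))|
      ≤ ∑ k : Fin (n + 1), |(-1 : ℝ) ^ (k : ℕ) * evA ψ h (bary ∘ (σ ∘ k.succAbove))| :=
        Finset.abs_sum_le_sum_abs _ _
    _ ≤ ∑ _k : Fin (n + 1), M := by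
        refine Finset.sum_le_sum fun k _ => ?_
        rw [abs_mul, abs_pow, abs_neg, abs_one, one_pow, one_mul]
        exact evA_bound h hM hM0 _
    _ = (n + 1) * M := by
        rw [Finset.sum_const, Finset.card_univ, Fintype.card_fin, nsmul_eq_mul]
        push_cast
        ring

theorem FF_expand {ψ : (Fin n → V) → ℝ} (h : Alt ψ) {σ : Fin (n + 1) → Finset V}
    (hσ : ∀ i, (σ i).Nonempty) :
    FF ψ h σ = ∑ v : Fin (n + 1) → V, (∏ i, bary (σ i) (v i)) * cobd ψ v := by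
  unfold FF cobd
  simp only [Finset.mul_sum]
  rw [Finset.sum_comm]
  refine Finset.sum_congr rfl fun k _ => ?_
  rw [evA_apply, ← Equiv.sum_comp (Fin.insertNthEquiv (fun _ : Fin (n + 1) => V) k),
    Fintype.sum_prod_type, Finset.mul_sum, Finset.sum_comm]
  refine Finset.sum_congr rfl fun u _ => ?_
  have h1 : ∀ x : V, (∏ i, bary (σ i) ((Fin.insertNthEquiv (fun _ : Fin (n + 1) => V) k) (x, u) i)) *
      ((-1 : ℝ) ^ (k : ℕ) * ψ ((Fin.insertNthEquiv (fun _ : Fin (n + 1) => V) k) (x, u) ∘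
        k.succAbove)) = bary (σ k) x * ((∏ i, bary (σ (k.succAbove i)) (u i)) *
        ((-1 : ℝ) ^ (k : ℕ) * ψ u)) := by
    intro x
    rw [Fin.prod_univ_succAbove _ k]
    have e1 : (Fin.insertNthEquiv (fun _ : Fin (n + 1) => V) k) (x, u) ∘ k.succAbove = u := by
      funext i
      simp [Fin.insertNthEquiv]
    rw [e1]
    simp only [Fin.insertNthEquiv, Equiv.coe_fn_mk, Fin.insertNth_apply_same,
      Fin.insertNth_apply_succAbove]
    ring
  rw [Finset.sum_congr rfl fun x _ => h1 x, ← Finset.sum_mul, sum_bary (hσ k), one_mul]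
  simp only [Function.comp_apply]
  ring

/-- the local term vanishes on joins -/
theorem FF_join {G : SimpleGraph V} {ψ : (Fin n → V) → ℝ} (h : Alt ψ)
    (hψ : ∀ v : Fin (n + 1) → V, Jn G (Set.range v) → cobd ψ v = 0)
    {σ : Fin (n + 1) → Finset V} (hσ : ∀ i, (σ i).Nonempty) (hJ : Jn G {s | ∃ i, s ∈ σ i}) :
    FF ψ h σ = 0 := by
  rw [FF_expand h hσ]
  refine Finset.sum_eq_zero fun v _ => ?_
  by_cases h0 : ∏ i, bary (σ i) (v i) = 0
  · rw [h0, zero_mul]
  · rw [hψ v, mul_zero]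
    obtain ⟨A, B, hA, hB, hAB, hT⟩ := hJ
    refine ⟨A, B, hA, hB, hAB, ?_⟩
    rintro _ ⟨i, rfl⟩
    apply hT
    refine ⟨i, bary_ne ?_⟩
    intro h1
    exact h0 (Finset.prod_eq_zero (Finset.mem_univ i) h1)

theorem FF_empty {ψ : (Fin n → V) → ℝ} (h : Alt ψ) {σ : Fin (n + 1) → Finset V} {i : Fin (n + 1)}
    (hi : σ i = ∅) : FF ψ h σ = (-1) ^ (i : ℕ) * evA ψ h (bary ∘ (σ ∘ i.succAbove)) := by
  unfold FF cobd
  rw [Finset.sum_eq_single i]
  · intro k _ hk
    obtain ⟨i', hi'⟩ := Fin.exists_succAbove_eq (x := i) (y := k) hk.symm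
    change (-1 : ℝ) ^ (k : ℕ) * evA ψ h (bary ∘ (σ ∘ k.succAbove)) = 0
    rw [(evA ψ h).map_coord_zero i' (by simp [hi', hi, bary_empty]), mul_zero]
  · intro hn; exact absurd (Finset.mem_univ _) hn

end alt

/-! ### the cochain -/

section coch

variable {V : Type} [Fintype V] (G : SimpleGraph V) {n : ℕ}

/-- the cochain -/
noncomputable def al (ψ : (Fin n → V) → ℝ) (h : Alt ψ) (g : Fin (n + 1) → W G) : ℝ :=
  ∑ᶠ v : W G, ((par G v : ℤ) : ℝ) * FF ψ h fun i => dr v (g i)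

variable {G}

/-- the vertices with nonzero local term -/
def Sp (ψ : (Fin n → V) → ℝ) (h : Alt ψ) (g : Fin (n + 1) → W G) : Set (W G) :=
  {v | (FF ψ h fun i => dr v (g i)) ≠ 0}

theorem two_values (hn : 2 ≤ n) (f : Fin (n + 1) → Prop) :
    ∃ i j : Fin (n + 1), i ≠ j ∧ (f i ↔ f j) := by
  have h0 : (0 : ℕ) < n + 1 := by omega
  have h1 : (1 : ℕ) < n + 1 := by omega
  have h2 : (2 : ℕ) < n + 1 := by omega
  have d1 : (⟨0, h0⟩ : Fin (n + 1)) ≠ ⟨1, h1⟩ := by simp
  have d2 : (⟨0, h0⟩ : Fin (n + 1)) ≠ ⟨2, h2⟩ := by simp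
  have d3 : (⟨1, h1⟩ : Fin (n + 1)) ≠ ⟨2, h2⟩ := by simp
  by_cases a : f ⟨0, h0⟩ ↔ f ⟨1, h1⟩
  · exact ⟨_, _, d1, a⟩
  · by_cases b : f ⟨0, h0⟩ ↔ f ⟨2, h2⟩
    · exact ⟨_, _, d2, b⟩
    · exact ⟨_, _, d3, by tauto⟩

variable {ψ : (Fin n → V) → ℝ} (h : Alt ψ) (hn : 2 ≤ n)
  (hψ : ∀ v : Fin (n + 1) → V, Jn G (Set.range v) → cobd ψ v = 0)

include hn hψ

theorem Sp_inj (g : Fin (n + 1) → W G) :
    Set.InjOn (fun (v : W G) (i : Fin (n + 1)) => dr v (g i)) (Sp ψ h g) := by
  intro v hv v' _ he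
  have ht : ∀ i, dr v (g i) = dr v' (g i) := fun i => congrFun he i
  by_contra hne
  by_cases hem : ∃ i, dr v (g i) = ∅
  · obtain ⟨i, hi⟩ := hem
    have h1 := dr_eq_empty.1 hi
    rw [ht i] at hi
    exact hne (h1.trans (dr_eq_empty.1 hi).symm)
  · apply hv
    rcases key (two_values hn) g hne ht with ⟨i, j, hij, e⟩ | hJ
    · exact FF_of_eq h hij e
    · refine FF_join (G := G) h hψ (fun i => ?_) hJ
      rw [Finset.nonempty_iff_ne_empty]
      exact fun e => hem ⟨i, e⟩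

theorem Sp_fin (g : Fin (n + 1) → W G) : (Sp ψ h g).Finite :=
  Set.Finite.of_injOn (t := Set.univ) (fun _ _ => Set.mem_univ _) (Sp_inj h hn hψ g) Set.finite_univ

theorem Sp_card (g : Fin (n + 1) → W G) :
    (Sp_fin h hn hψ g).toFinset.card ≤ 2 ^ (Fintype.card V * (n + 1)) := by
  have h1 : (Sp_fin h hn hψ g).toFinset.card ≤ (Finset.univ : Finset (Fin (n + 1) → Finset V)).card := by
    refine Finset.card_le_card_of_injOn (fun (v : W G) (i : Fin (n + 1)) => dr v (g i))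
      (fun _ _ => Finset.mem_coe.2 (Finset.mem_univ _)) ?_
    rw [Set.Finite.coe_toFinset]
    exact Sp_inj h hn hψ g
  rw [Finset.card_univ, Fintype.card_fun, Fintype.card_finset, Fintype.card_fin, ← pow_mul] at h1
  exact h1

omit hn hψ in
theorem al_eq_sum (g : Fin (n + 1) → W G) (s : Finset (W G)) (hs : Sp ψ h g ⊆ s) :
    al G ψ h g = ∑ v ∈ s, ((par G v : ℤ) : ℝ) * FF ψ h fun i => dr v (g i) := by
  unfold al
  refine finsum_eq_sum_of_support_subset _ ?_
  intro v hv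
  apply hs
  intro h0
  apply hv
  simp only [h0, mul_zero]

omit [Fintype V] hn hψ in
theorem par_abs (v : W G) : |((par G v : ℤ) : ℝ)| = 1 := by
  rcases Int.units_eq_one_or (par G v) with h | h <;> simp [h]

theorem al_bound {M : ℝ} (hM : ∀ v, |ψ v| ≤ M) (hM0 : 0 ≤ M) (g : Fin (n + 1) → W G) :
    |al G ψ h g| ≤ 2 ^ (Fintype.card V * (n + 1)) * ((n + 1) * M) := by
  rw [al_eq_sum h g (Sp_fin h hn hψ g).toFinset (by rw [Set.Finite.coe_toFinset])]
  calc |∑ v ∈ (Sp_fin h hn hψ g).toFinset, ((par G v : ℤ) : ℝ) * FF ψ h fun i => dr v (g i)|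
      ≤ ∑ v ∈ (Sp_fin h hn hψ g).toFinset, |((par G v : ℤ) : ℝ) * FF ψ h fun i => dr v (g i)| :=
        Finset.abs_sum_le_sum_abs _ _
    _ ≤ ∑ _v ∈ (Sp_fin h hn hψ g).toFinset, ((n + 1) * M) := by
        refine Finset.sum_le_sum fun v _ => ?_
        rw [abs_mul, par_abs, one_mul]
        exact FF_bound h hM hM0 _
    _ = ((Sp_fin h hn hψ g).toFinset.card : ℝ) * ((n + 1) * M) := by
        rw [Finset.sum_const, nsmul_eq_mul]
    _ ≤ 2 ^ (Fintype.card V * (n + 1)) * ((n + 1) * M) := by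
        refine mul_le_mul_of_nonneg_right ?_ (by positivity)
        exact_mod_cast Sp_card h hn hψ g

theorem al_coc (g : Fin (n + 2) → W G) : cobd (al G ψ h) g = 0 := by
  let s : Finset (W G) := Finset.univ.biUnion fun k : Fin (n + 2) =>
    (Sp_fin h hn hψ (g ∘ k.succAbove)).toFinset
  have h1 : ∀ k : Fin (n + 2), al G ψ h (g ∘ k.succAbove) =
      ∑ v ∈ s, ((par G v : ℤ) : ℝ) * FF ψ h ((fun i => dr v (g i)) ∘ k.succAbove) := by
    intro k
    refine al_eq_sum h _ s ?_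
    intro v hv
    rw [Finset.mem_coe, Finset.mem_biUnion]
    exact ⟨k, Finset.mem_univ _, by rwa [Set.Finite.mem_toFinset]⟩
  unfold cobd
  simp only [h1, Finset.mul_sum]
  rw [Finset.sum_comm]
  refine Finset.sum_eq_zero fun v _ => ?_
  have h2 := cobd_cobd n (fun τ : Fin n → Finset V => evA ψ h (bary ∘ τ)) fun i => dr v (g i)
  rw [cobd] at h2
  calc ∑ k : Fin (n + 2), (-1 : ℝ) ^ (k : ℕ) *
        (((par G v : ℤ) : ℝ) * FF ψ h ((fun i => dr v (g i)) ∘ k.succAbove))
      = ((par G v : ℤ) : ℝ) * ∑ k : Fin (n + 2), (-1 : ℝ) ^ (k : ℕ) *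
        cobd (fun τ : Fin n → Finset V => evA ψ h (bary ∘ τ))
          ((fun i => dr v (g i)) ∘ k.succAbove) := by
        rw [Finset.mul_sum]
        refine Finset.sum_congr rfl fun k _ => ?_
        rw [FF]; ring
    _ = 0 := by rw [h2, mul_zero]

omit hn hψ in
theorem al_gen (x : V) (g : Fin (n + 1) → W G) :
    al G ψ h (fun i => gen G x * g i) = - al G ψ h g := by
  unfold al
  rw [← finsum_comp_equiv (Equiv.mulLeft (gen G x)), ← finsum_neg_distrib]
  refine finsum_congr fun v => ?_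
  simp only [Equiv.coe_mulLeft, dr_mul, map_mul, par_gen]
  push_cast
  ring

omit hn hψ in
theorem al_nrm (g : Fin (n + 1) → W G) {i j : Fin (n + 1)} (hij : i ≠ j) (he : g i = g j) :
    al G ψ h g = 0 := by
  unfold al
  rw [← finsum_zero (α := W G)]
  refine finsum_congr fun v => ?_
  rw [FF_of_eq h hij (by simp [he]), mul_zero]

/-- the cochain is a bounded cocycle -/
theorem al_good : Good G n (al G ψ h) := by
  refine ⟨fun x g => al_gen h x g, fun g => al_coc h hn hψ g, ?_, fun g i hi =>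
    al_nrm h g (Fin.castSucc_lt_succ).ne hi⟩
  refine ⟨_, al_bound h hn hψ (M := ∑ v, |ψ v|) (fun v => ?_) (by positivity)⟩
  exact Finset.single_le_sum (f := fun v => |ψ v|) (fun _ _ => abs_nonneg _) (Finset.mem_univ v)

end coch

end Pool.Agent.J4.H51.JC
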