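import Pool.Agent.J4.H51.JC.Deg2

/-!
Bounded cocycles of degree two vanish on squares.
-/

set_option autoImplicit false

open scoped Classical

namespace Pool.Agent.J4.H51.JC

open Pool.Agent.W907.SG (W cox)
open Pool.Agent.Q134.SV Pool.Agent.N13.QC

section

variable {V : Type} {G : SimpleGraph V}

/-- `x, y, x, y, …` -/
def zz (x y : V) (m : ℕ) : V := if m % 2 = 0 then x else y

variable (G) in
/-- the points of the line of the dihedral group of `x`, `y` -/
noncomputable def XX (x y : V) : ℕ → W G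
  | 0 => 1
  | m + 1 => XX x y m * gen G (zz x y m)

theorem sum_zz (x y : V) (h : V → ℝ) (R : ℕ) :
    ∑ m ∈ Finset.range (2 * R), (-1 : ℝ) ^ m * h (zz x y m) = R * (h x - h y) := by
  induction R with
  | zero => simp
  | succ R ih =>
    rw [show 2 * (R + 1) = 2 * R + 1 + 1 by ring, Finset.sum_range_succ, Finset.sum_range_succ, ih]
    have e1 : zz x y (2 * R) = x := by unfold zz; rw [if_pos (by omega)]
    have e2 : zz x y (2 * R + 1) = y := by unfold zz; rw [if_neg (by omega)]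
    rw [e1, e2, pow_succ, pow_mul]
    push_cast
    norm_num
    ring

theorem XX_comm {x₀ x₁ : V} {w : W G} (h0 : w * gen G x₀ = gen G x₀ * w)
    (h1 : w * gen G x₁ = gen G x₁ * w) (m : ℕ) : w * XX G x₀ x₁ m = XX G x₀ x₁ m * w := by
  induction m with
  | zero => simp [XX]
  | succ m ih =>
    rw [XX, ← mul_assoc, ih, mul_assoc, mul_assoc]
    congr 1
    unfold zz
    split_ifs
    · exact h0
    · exact h1

/-- a bounded cocycle vanishes on squares -/
theorem square_zero (c : W G → W G → W G → ℝ) {x₀ x₁ y₀ y₁ : V} (h00 : G.Adj x₀ y₀)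
    (h01 : G.Adj x₀ y₁) (h10 : G.Adj x₁ y₀) (h11 : G.Adj x₁ y₁)
    (hgen : ∀ s, s = x₀ ∨ s = x₁ ∨ s = y₀ ∨ s = y₁ → ∀ g₀ g₁ g₂,
      c (gen G s * g₀) (gen G s * g₁) (gen G s * g₂) = - c g₀ g₁ g₂)
    (hcoc : ∀ g₀ g₁ g₂ g₃, c g₁ g₂ g₃ - c g₀ g₂ g₃ + c g₀ g₁ g₃ - c g₀ g₁ g₂ = 0)
    {C : ℝ} (hC : ∀ g₀ g₁ g₂, |c g₀ g₁ g₂| ≤ C) {E : V → V → ℝ}
    (hE : ∀ s t, E s t = c 1 (gen G s) (gen G s * gen G t) - c 1 (gen G t) (gen G s * gen G t)) :
    E x₀ y₀ - E x₀ y₁ - E x₁ y₀ + E x₁ y₁ = 0 := by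
  have hx : ∀ m, zz x₀ x₁ m = x₀ ∨ zz x₀ x₁ m = x₁ := by
    intro m; unfold zz; split_ifs <;> simp
  have hy : ∀ m, zz y₀ y₁ m = y₀ ∨ zz y₀ y₁ m = y₁ := by
    intro m; unfold zz; split_ifs <;> simp
  have hxy : ∀ m n, G.Adj (zz x₀ x₁ m) (zz y₀ y₁ n) := by
    intro m n
    rcases hx m with h | h <;> rcases hy n with h' | h' <;> rw [h, h'] <;> assumption
  let P : ℕ → ℕ → W G := fun m n => XX G x₀ x₁ m * XX G y₀ y₁ n
  have hP1 : ∀ m n, P (m + 1) n = P m n * gen G (zz x₀ x₁ m) := by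
    intro m n
    simp only [P, XX]
    rw [mul_assoc, mul_assoc]
    congr 1
    have h := fun y => gen_comm G (hxy m y)
    refine XX_comm ?_ ?_ n
    · have := h 0; simpa [zz] using this
    · have := h 1; simpa [zz] using this
  have hP2 : ∀ m n, P m (n + 1) = P m n * gen G (zz y₀ y₁ n) := by
    intro m n
    simp only [P, XX]
    rw [mul_assoc]
  have hXeq : ∀ m (g₀ g₁ g₂ : W G), c (XX G x₀ x₁ m * g₀) (XX G x₀ x₁ m * g₁)
      (XX G x₀ x₁ m * g₂) = (-1) ^ m * c g₀ g₁ g₂ := by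
    intro m
    induction m with
    | zero => intro g₀ g₁ g₂; simp [XX]
    | succ m ih =>
      intro g₀ g₁ g₂
      simp only [XX, mul_assoc]
      rw [ih, hgen _ (by rcases hx m with h | h <;> simp [h]), pow_succ]
      ring
  have hYeq : ∀ m (g₀ g₁ g₂ : W G), c (XX G y₀ y₁ m * g₀) (XX G y₀ y₁ m * g₁)
      (XX G y₀ y₁ m * g₂) = (-1) ^ m * c g₀ g₁ g₂ := by
    intro m
    induction m with
    | zero => intro g₀ g₁ g₂; simp [XX]
    | succ m ih =>
      intro g₀ g₁ g₂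
      simp only [XX, mul_assoc]
      rw [ih, hgen _ (by rcases hy m with h | h <;> simp [h]), pow_succ]
      ring
  have hPeq : ∀ m n (g₀ g₁ g₂ : W G), c (P m n * g₀) (P m n * g₁) (P m n * g₂) =
      (-1) ^ m * ((-1) ^ n * c g₀ g₁ g₂) := by
    intro m n g₀ g₁ g₂
    simp only [P, mul_assoc]
    rw [hXeq, hYeq]
  -- the area
  let ar : ℕ → ℕ → ℝ := fun m n => c (P m n) (P (m + 1) n) (P (m + 1) (n + 1)) -
    c (P m n) (P m (n + 1)) (P (m + 1) (n + 1))
  have har : ∀ m n, ar m n = (-1) ^ m * ((-1) ^ n * E (zz x₀ x₁ m) (zz y₀ y₁ n)) := by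
    intro m n
    have e1 := hPeq m n 1 (gen G (zz x₀ x₁ m)) (gen G (zz x₀ x₁ m) * gen G (zz y₀ y₁ n))
    have e2 := hPeq m n 1 (gen G (zz y₀ y₁ n)) (gen G (zz x₀ x₁ m) * gen G (zz y₀ y₁ n))
    rw [mul_one, ← mul_assoc] at e1 e2
    simp only [ar]
    rw [hE, hP2 (m + 1) n, hP1, hP2 m n, e1, e2]
    ring
  let hx' : ℕ → ℕ → ℝ := fun m n => c 1 (P m n) (P (m + 1) n)
  let hy' : ℕ → ℕ → ℝ := fun m n => c 1 (P m n) (P m (n + 1))
  have htel : ∀ m n, ar m n = (hx' m n - hx' m (n + 1)) + (hy' (m + 1) n - hy' m n) := by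
    intro m n
    have e1 := hcoc 1 (P m n) (P (m + 1) n) (P (m + 1) (n + 1))
    have e2 := hcoc 1 (P m n) (P m (n + 1)) (P (m + 1) (n + 1))
    simp only [ar, hx', hy']
    linarith
  have hsum : ∀ M N : ℕ, ∑ m ∈ Finset.range M, ∑ n ∈ Finset.range N, ar m n =
      ∑ m ∈ Finset.range M, (hx' m 0 - hx' m N) + ∑ n ∈ Finset.range N, (hy' M n - hy' 0 n) := by
    intro M N
    simp only [htel, Finset.sum_add_distrib]
    congr 1
    · refine Finset.sum_congr rfl fun m _ => ?_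
      exact Finset.sum_range_sub' (fun n => hx' m n) N
    · rw [Finset.sum_comm]
      refine Finset.sum_congr rfl fun n _ => ?_
      exact Finset.sum_range_sub (fun m => hy' m n) M
  have hC0 : 0 ≤ C := (abs_nonneg _).trans (hC 1 1 1)
  have hbd : ∀ R : ℕ, |∑ m ∈ Finset.range (2 * R), ∑ n ∈ Finset.range (2 * R), ar m n| ≤
      8 * R * C := by
    intro R
    rw [hsum]
    have b1 : |∑ m ∈ Finset.range (2 * R), (hx' m 0 - hx' m (2 * R))| ≤ (2 * R) * (2 * C) := by
      refine (Finset.abs_sum_le_sum_abs _ _).trans ?_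
      calc ∑ m ∈ Finset.range (2 * R), |hx' m 0 - hx' m (2 * R)|
          ≤ ∑ _m ∈ Finset.range (2 * R), 2 * C := by
            refine Finset.sum_le_sum fun m _ => ?_
            refine (abs_sub _ _).trans ?_
            have := hC 1 (P m 0) (P (m + 1) 0)
            have := hC 1 (P m (2 * R)) (P (m + 1) (2 * R))
            simp only [hx']
            linarith
        _ = (2 * R) * (2 * C) := by
            rw [Finset.sum_const, Finset.card_range, nsmul_eq_mul]; push_cast; ring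
    have b2 : |∑ n ∈ Finset.range (2 * R), (hy' (2 * R) n - hy' 0 n)| ≤ (2 * R) * (2 * C) := by
      refine (Finset.abs_sum_le_sum_abs _ _).trans ?_
      calc ∑ n ∈ Finset.range (2 * R), |hy' (2 * R) n - hy' 0 n|
          ≤ ∑ _n ∈ Finset.range (2 * R), 2 * C := by
            refine Finset.sum_le_sum fun n _ => ?_
            refine (abs_sub _ _).trans ?_
            have := hC 1 (P (2 * R) n) (P (2 * R) (n + 1))
            have := hC 1 (P 0 n) (P 0 (n + 1))
            simp only [hy']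
            linarith
        _ = (2 * R) * (2 * C) := by
            rw [Finset.sum_const, Finset.card_range, nsmul_eq_mul]; push_cast; ring
    refine (abs_add_le _ _).trans ?_
    linarith
  have hval : ∀ R : ℕ, ∑ m ∈ Finset.range (2 * R), ∑ n ∈ Finset.range (2 * R), ar m n =
      R * (R * (E x₀ y₀ - E x₀ y₁ - E x₁ y₀ + E x₁ y₁)) := by
    intro R
    have e1 : ∀ m, ∑ n ∈ Finset.range (2 * R), ar m n = (-1) ^ m *
        ((fun x => R * (E x y₀ - E x y₁)) (zz x₀ x₁ m)) := by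
      intro m
      simp only [har]
      rw [← Finset.mul_sum]
      congr 1
      exact sum_zz y₀ y₁ (fun y => E (zz x₀ x₁ m) y) R
    rw [Finset.sum_congr rfl fun m _ => e1 m, sum_zz x₀ x₁ (fun x => R * (E x y₀ - E x y₁)) R]
    ring
  by_contra hS
  set S := E x₀ y₀ - E x₀ y₁ - E x₁ y₀ + E x₁ y₁ with hSdef
  have hSpos : 0 < |S| := abs_pos.2 hS
  obtain ⟨R, hR⟩ := exists_nat_gt (8 * C / |S|)
  have hRpos : (0 : ℝ) < R := lt_of_le_of_lt (by positivity) hR
  have h1 := hbd R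
  rw [hval, abs_mul, abs_mul, abs_of_pos hRpos] at h1
  have h2 : (R : ℝ) * |S| ≤ 8 * C := by
    have : (R : ℝ) * (R * |S|) ≤ R * (8 * C) := by linarith
    exact le_of_mul_le_mul_left this hRpos
  rw [div_lt_iff₀ hSpos] at hR
  linarith

end

/-- The image of the bounded classes in degree two, for the coefficients which are twisted by the
parity of the number of the letters in `A`: the class of a function `φ` on the edges in `A` which is
additive on triangles is bounded if and only if `φ` is additive on the induced squares in `A`. -/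
theorem deg2_iff (V : Type) [Fintype V] (G : SimpleGraph V) (A : Set V) (φ : V → V → ℝ)
    (hanti : ∀ a b, φ a b = - φ b a)
    (htri : ∀ a b c, a ∈ A → b ∈ A → c ∈ A → G.Adj a b → G.Adj b c → G.Adj a c →
      φ a b + φ b c = φ a c) :
    (∃ c : W G → W G → W G → ℝ,
      (∀ s g₀ g₁ g₂, c (gen G s * g₀) (gen G s * g₁) (gen G s * g₂) =
        (if s ∈ A then -1 else 1) * c g₀ g₁ g₂) ∧
      (∀ g₀ g₁ g₂ g₃, c g₁ g₂ g₃ - c g₀ g₂ g₃ + c g₀ g₁ g₃ - c g₀ g₁ g₂ = 0) ∧
      (∃ C : ℝ, ∀ g₀ g₁ g₂, |c g₀ g₁ g₂| ≤ C) ∧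
      ∀ s t, s ∈ A → t ∈ A → G.Adj s t → c 1 (gen G s) (gen G s * gen G t) -
        c 1 (gen G t) (gen G s * gen G t) = 4 * φ s t) ↔
    ∀ a b z z', a ∈ A → b ∈ A → z ∈ A → z' ∈ A → G.Adj a z → G.Adj z b → G.Adj a z' →
      G.Adj z' b → ¬ G.Adj a b → ¬ G.Adj z z' → φ a z + φ z b = φ a z' + φ z' b := by
  constructor
  · rintro ⟨c, h1, h2, ⟨C, h3⟩, h4⟩ a b z z' ha hb hz hz' h5 h6 h7 h8 _ _
    have e := square_zero c (x₀ := a) (x₁ := b) (y₀ := z) (y₁ := z') h5 h7 h6.symm h8.symm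
      (by
        intro s hs g₀ g₁ g₂
        rw [h1, if_pos (by rcases hs with rfl | rfl | rfl | rfl <;> assumption), neg_one_mul])
      h2 h3 (fun s t => rfl)
    rw [h4 a z ha hz h5, h4 a z' ha hz' h7, h4 b z hb hz h6.symm, h4 b z' hb hz' h8.symm,
      hanti b z, hanti b z'] at e
    linarith
  · intro hsq
    have h : SqFree G A φ := ⟨hanti, htri, hsq⟩
    refine ⟨C2 A φ h, C2_gen h, C2_coc h, ⟨_, C2_bound h (B := ∑ a, ∑ b, |φ a b|) (by positivity)
      (fun a b _ _ _ => ?_)⟩, ?_⟩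
    · refine (Finset.single_le_sum (f := fun b => |φ a b|) (fun _ _ => abs_nonneg _)
        (Finset.mem_univ b)).trans ?_
      exact Finset.single_le_sum (f := fun a => ∑ b, |φ a b|)
        (fun _ _ => Finset.sum_nonneg fun _ _ => abs_nonneg _) (Finset.mem_univ a)
    · intro s t hs ht hst
      rw [C2_val h hst, if_pos ⟨hs, ht⟩, gen_comm G hst, C2_val h hst.symm, if_pos ⟨ht, hs⟩,
        hanti t s]
      ring

end Pool.Agent.J4.H51.JC
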