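import Pool.Agent.J4.H51.JC.Dual

/-!
Classes of degree two: functions on the edges which are additive on triangles and squares.
-/

set_option autoImplicit false

open scoped Classical

namespace Pool.Agent.J4.H51.JC

open Pool.Agent.W907.SG (W cox)
open Pool.Agent.Q134.SV Pool.Agent.N13.QC

/-- `φ` is antisymmetric and additive on the triangles and on the induced squares with vertices in
`A` -/
structure SqFree {V : Type} (G : SimpleGraph V) (A : Set V) (φ : V → V → ℝ) : Prop where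
  anti : ∀ a b, φ a b = - φ b a
  tri : ∀ a b c, a ∈ A → b ∈ A → c ∈ A → G.Adj a b → G.Adj b c → G.Adj a c → φ a b + φ b c = φ a c
  sq : ∀ a b z z', a ∈ A → b ∈ A → z ∈ A → z' ∈ A → G.Adj a z → G.Adj z b → G.Adj a z' →
    G.Adj z' b → ¬ G.Adj a b → ¬ G.Adj z z' → φ a z + φ z b = φ a z' + φ z' b

section pot

variable {V : Type} {G : SimpleGraph V} {φ : V → V → ℝ}

theorem SqFree.walk {A : Set V} (h : SqFree G A φ) {a b z z' : V} (ha : a ∈ A) (hb : b ∈ A)
    (hz : z ∈ A) (hz' : z' ∈ A) (h1 : G.Adj a z) (h2 : G.Adj z b) (h3 : G.Adj a z')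
    (h4 : G.Adj z' b) : φ a z + φ z b = φ a z' + φ z' b := by
  by_cases hab : G.Adj a b
  · rw [h.tri a z b ha hz hb h1 h2 hab, h.tri a z' b ha hz' hb h3 h4 hab]
  · by_cases hzz : G.Adj z z'
    · have e1 := h.tri a z z' ha hz hz' h1 hzz h3
      have e2 := h.tri z z' b hz hz' hb hzz h4 h2
      linarith
    · exact h.sq a b z z' ha hb hz hz' h1 h2 h3 h4 hab hzz

variable (G φ) in
/-- the extension of `φ` to all pairs of vertices -/
noncomputable def pot (a b : V) : ℝ :=
  if h : ∃ z, G.Adj a z ∧ G.Adj z b then φ a h.choose + φ h.choose b else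
    if G.Adj a b then φ a b else 0

variable (h : SqFree G Set.univ φ)

include h

theorem pot_eq {a b z : V} (h1 : G.Adj a z) (h2 : G.Adj z b) : pot G φ a b = φ a z + φ z b := by
  have hex : ∃ z, G.Adj a z ∧ G.Adj z b := ⟨z, h1, h2⟩
  rw [pot, dif_pos hex]
  exact h.walk trivial trivial trivial trivial hex.choose_spec.1 hex.choose_spec.2 h1 h2

theorem pot_adj {a b : V} (h1 : G.Adj a b) : pot G φ a b = φ a b := by
  by_cases hex : ∃ z, G.Adj a z ∧ G.Adj z b
  · rw [pot, dif_pos hex]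
    exact h.tri _ _ _ trivial trivial trivial hex.choose_spec.1 hex.choose_spec.2 h1
  · rw [pot, dif_neg hex, if_pos h1]

theorem pot_anti (a b : V) : pot G φ a b = - pot G φ b a := by
  by_cases hex : ∃ z, G.Adj a z ∧ G.Adj z b
  · obtain ⟨z, h1, h2⟩ := hex
    rw [pot_eq h h1 h2, pot_eq h h2.symm h1.symm, h.anti a z, h.anti z b]
    ring
  · have hex' : ¬ ∃ z, G.Adj b z ∧ G.Adj z a := by
      rintro ⟨z, h1, h2⟩
      exact hex ⟨z, h2.symm, h1.symm⟩
    rw [pot, dif_neg hex, pot, dif_neg hex']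
    by_cases hab : G.Adj a b
    · rw [if_pos hab, if_pos hab.symm, h.anti a b]
    · rw [if_neg hab, if_neg (fun e => hab e.symm), neg_zero]

theorem pot_join {A B : Set V} (hA : A.Nonempty) (hB : B.Nonempty)
    (hAB : ∀ a ∈ A, ∀ b ∈ B, G.Adj a b) :
    ∃ p : V → ℝ, ∀ a ∈ A ∪ B, ∀ b ∈ A ∪ B, pot G φ a b = p b - p a := by
  obtain ⟨x, hx⟩ := hA
  obtain ⟨y, hy⟩ := hB
  refine ⟨fun b => if b ∈ A then φ x y + φ y b else φ x b, ?_⟩
  have hdis : ∀ b ∈ B, b ∉ A := fun b hb ha => (hAB b ha b hb).ne rfl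
  rintro a (ha | ha) b (hb | hb) <;> dsimp only
  · rw [if_pos ha, if_pos hb, pot_eq h (hAB a ha y hy) (hAB b hb y hy).symm, h.anti a y]
    ring
  · rw [if_pos ha, if_neg (hdis b hb), pot_adj h (hAB a ha b hb)]
    have e := h.walk trivial trivial trivial trivial (hAB x hx b hb) (hAB a ha b hb).symm
      (hAB x hx y hy) (hAB a ha y hy).symm
    rw [h.anti a b]
    linarith
  · rw [if_neg (hdis a ha), if_pos hb, pot_adj h (hAB b hb a ha).symm]
    have e := h.walk trivial trivial trivial trivial (hAB x hx a ha) (hAB b hb a ha).symm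
      (hAB x hx y hy) (hAB b hb y hy).symm
    linarith
  · rw [if_neg (hdis a ha), if_neg (hdis b hb), pot_eq h (hAB x hx a ha).symm (hAB x hx b hb),
      h.anti a x]
    ring

theorem alt_pot : Alt (fun v : Fin 2 → V => pot G φ (v 0) (v 1)) := by
  intro v i j hij
  simp only [Function.comp_apply]
  fin_cases i <;> fin_cases j
  · exact absurd rfl hij
  · simp only [Fin.zero_eta, Fin.mk_one, Equiv.swap_apply_left, Equiv.swap_apply_right]
    exact pot_anti h _ _
  · simp only [Fin.zero_eta, Fin.mk_one, Equiv.swap_apply_left, Equiv.swap_apply_right]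
    exact pot_anti h _ _
  · exact absurd rfl hij

theorem cobd_pot (v : Fin 3 → V) (hv : Jn G (Set.range v)) :
    cobd (fun v : Fin 2 → V => pot G φ (v 0) (v 1)) v = 0 := by
  obtain ⟨A, B, hA, hB, hAB, hr⟩ := hv
  obtain ⟨p, hp⟩ := pot_join h hA hB hAB
  have h3 : ∀ i, v i ∈ A ∪ B := fun i => hr ⟨i, rfl⟩
  have e : cobd (fun v : Fin 2 → V => pot G φ (v 0) (v 1)) v =
      pot G φ (v 1) (v 2) - pot G φ (v 0) (v 2) + pot G φ (v 0) (v 1) := by
    unfold cobd
    rw [Fin.sum_univ_three]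
    simp [Fin.succAbove]
    ring
  rw [e, hp _ (h3 1) _ (h3 2), hp _ (h3 0) _ (h3 2), hp _ (h3 0) _ (h3 1)]
  ring

omit h in
theorem pot_bound {B : ℝ} (hB : 0 ≤ B) (hφ : ∀ a b, G.Adj a b → |φ a b| ≤ B) (a b : V) :
    |pot G φ a b| ≤ 2 * B := by
  unfold pot
  split_ifs with h1 h2
  · refine (abs_add_le _ _).trans ?_
    have := hφ _ _ h1.choose_spec.1
    have := hφ _ _ h1.choose_spec.2
    linarith
  · have := hφ _ _ h2; linarith
  · rw [abs_zero]; linarith

end pot

section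

variable {V : Type} [Fintype V] {G : SimpleGraph V}

omit [Fintype V] in
theorem sqFree_induce {A : Set V} {φ : V → V → ℝ} (h : SqFree G A φ) :
    SqFree (G.induce A) Set.univ (fun a b : A => φ a b) where
  anti a b := h.anti a b
  tri a b c _ _ _ h1 h2 h3 := h.tri a b c a.2 b.2 c.2 h1 h2 h3
  sq a b z z' _ _ _ _ h1 h2 h3 h4 h5 h6 := h.sq a b z z' a.2 b.2 z.2 z'.2 h1 h2 h3 h4 h5 h6

/-- the cochain of degree two -/
noncomputable def C2 (A : Set V) (φ : V → V → ℝ) (h : SqFree G A φ) (g₀ g₁ g₂ : W G) : ℝ :=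
  al (G.induce A) _ (alt_pot (sqFree_induce h)) fun j => toK G A ((![g₀, g₁, g₂] : Fin 3 → W G) j)

variable {A : Set V} {φ : V → V → ℝ} (h : SqFree G A φ)

theorem C2_gen (s : V) (g₀ g₁ g₂ : W G) : C2 A φ h (gen G s * g₀) (gen G s * g₁) (gen G s * g₂) =
    (if s ∈ A then -1 else 1) * C2 A φ h g₀ g₁ g₂ := by
  unfold C2
  by_cases hs : s ∈ A
  · rw [if_pos hs, neg_one_mul, ← al_gen _ ⟨s, hs⟩]
    congr 1
    funext j
    fin_cases j <;> simp [toK_gen s hs]
  · rw [if_neg hs, one_mul]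
    congr 1
    funext j
    fin_cases j <;> simp [toK_gen_not s hs]

theorem C2_coc (g₀ g₁ g₂ g₃ : W G) : C2 A φ h g₁ g₂ g₃ - C2 A φ h g₀ g₂ g₃ + C2 A φ h g₀ g₁ g₃ -
    C2 A φ h g₀ g₁ g₂ = 0 := by
  have h1 := al_coc (alt_pot (sqFree_induce h)) le_rfl
    (fun v hv => cobd_pot (sqFree_induce h) v hv)
    (fun j => toK G A ((![g₀, g₁, g₂, g₃] : Fin 4 → W G) j))
  unfold cobd at h1
  rw [Fin.sum_univ_four] at h1
  unfold C2
  have e : ∀ (x y z : W G) (i : Fin 4), (![x, y, z] : Fin 3 → W G) =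
      (![g₀, g₁, g₂, g₃] : Fin 4 → W G) ∘ i.succAbove →
      al (G.induce A) _ (alt_pot (sqFree_induce h)) (fun j => toK G A ((![x, y, z] : Fin 3 → W G) j)) =
      al (G.induce A) _ (alt_pot (sqFree_induce h))
        ((fun j => toK G A ((![g₀, g₁, g₂, g₃] : Fin 4 → W G) j)) ∘ i.succAbove) := by
    intro x y z i hi
    rw [hi]; rfl
  rw [e g₁ g₂ g₃ 0 (by funext j; fin_cases j <;> rfl),
    e g₀ g₂ g₃ 1 (by funext j; fin_cases j <;> rfl),
    e g₀ g₁ g₃ 2 (by funext j; fin_cases j <;> rfl),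
    e g₀ g₁ g₂ 3 (by funext j; fin_cases j <;> rfl)]
  simp only [Fin.val_zero, pow_zero, one_mul, Fin.val_one, pow_one, Fin.val_two] at h1
  rw [← h1]
  norm_num
  ring

theorem C2_deg (g k : W G) : C2 A φ h g g k = 0 ∧ C2 A φ h g k k = 0 := by
  constructor
  · exact al_nrm _ _ (i := 0) (j := 1) (by decide) rfl
  · exact al_nrm _ _ (i := 1) (j := 2) (by decide) rfl

theorem C2_bound {B : ℝ} (hB : 0 ≤ B) (hφ : ∀ a b, a ∈ A → b ∈ A → G.Adj a b → |φ a b| ≤ B)
    (g₀ g₁ g₂ : W G) : |C2 A φ h g₀ g₁ g₂| ≤ 6 * 8 ^ Fintype.card V * B := by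
  have h1 := al_bound (alt_pot (sqFree_induce h)) le_rfl
    (fun v hv => cobd_pot (sqFree_induce h) v hv) (M := 2 * B)
    (fun v => pot_bound (G := G.induce A) (φ := fun a b : A => φ a b) hB
      (fun a b hab => hφ a b a.2 b.2 hab) _ _) (by linarith)
    (fun j => toK G A ((![g₀, g₁, g₂] : Fin 3 → W G) j))
  refine h1.trans ?_
  have h2 : Fintype.card A ≤ Fintype.card V := Fintype.card_subtype_le _
  have h3 : (2 : ℝ) ^ (Fintype.card A * (2 + 1)) ≤ 8 ^ Fintype.card V := by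
    rw [mul_comm, pow_mul]
    have h8 : (2 : ℝ) ^ (2 + 1) = 8 := by norm_num
    rw [h8]
    exact pow_le_pow_right₀ (by norm_num) h2
  push_cast
  calc (2 : ℝ) ^ (Fintype.card A * (2 + 1)) * ((2 + 1) * (2 * B))
      ≤ 8 ^ Fintype.card V * ((2 + 1) * (2 * B)) :=
        mul_le_mul_of_nonneg_right h3 (by positivity)
    _ = 6 * 8 ^ Fintype.card V * B := by ring

theorem C2_val {s t : V} (hst : G.Adj s t) : C2 A φ h 1 (gen G s) (gen G s * gen G t) =
    if s ∈ A ∧ t ∈ A then 2 * φ s t else 0 := by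
  by_cases hs : s ∈ A
  · by_cases ht : t ∈ A
    · rw [if_pos ⟨hs, ht⟩]
      let σ : Fin 2 → A := ![⟨s, hs⟩, ⟨t, ht⟩]
      have hσ : ∀ i j, i ≠ j → (G.induce A).Adj (σ i) (σ j) := by
        intro i j hij
        fin_cases i <;> fin_cases j
        · exact absurd rfl hij
        · exact hst
        · exact hst.symm
        · exact absurd rfl hij
      have h1 := al_val hσ (alt_pot (sqFree_induce h)) le_rfl
        (fun v hv => cobd_pot (sqFree_induce h) v hv)
      have e1 : Fin.partialProd (gen (G.induce A) ∘ σ) =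
          fun j => toK G A ((![1, gen G s, gen G s * gen G t] : Fin 3 → W G) j) := by
        funext j
        fin_cases j
        · simp [Fin.partialProd_zero]
        · change Fin.partialProd (gen (G.induce A) ∘ σ) (Fin.succ 0) = _
          rw [Fin.partialProd_succ]
          simp [σ, Fin.partialProd_zero, toK_gen s hs]
        · change Fin.partialProd (gen (G.induce A) ∘ σ) (Fin.succ 1) = _
          rw [Fin.partialProd_succ]
          change Fin.partialProd (gen (G.induce A) ∘ σ) (Fin.succ 0) * _ = _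
          rw [Fin.partialProd_succ]
          simp [σ, Fin.partialProd_zero, toK_gen s hs, toK_gen t ht]
      rw [e1] at h1
      unfold C2
      rw [h1]
      simp only [σ, Matrix.cons_val_zero, Matrix.cons_val_one]
      rw [pot_adj (sqFree_induce h) (a := ⟨s, hs⟩) (b := ⟨t, ht⟩) hst]
      norm_num [Nat.factorial]
    · rw [if_neg (fun e => ht e.2)]
      have h1 := (C2_deg h 1 (gen G s)).2
      rw [← h1]
      unfold C2
      congr 1
      funext j
      fin_cases j <;> simp [toK_gen_not t ht]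
  · rw [if_neg (fun e => hs e.1)]
    have h1 := (C2_deg h 1 (gen G t)).1
    rw [← h1]
    unfold C2
    congr 1
    funext j
    fin_cases j <;> simp [toK_gen_not s hs]

end

/-- cocycles from partitions of the vertices and classes of degree two of the parts -/
theorem ex_part (k : ℕ) (V : Type) [Fintype V] (G : SimpleGraph V) (part : V → ℕ)
    (hpart : ∀ v, part v < k) (φ : Fin k → V → V → ℝ) (B : Fin k → ℝ)
    (hS : ∀ i : Fin k, SqFree G {v | part v = i} (φ i)) (hB0 : ∀ i, 0 ≤ B i)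
    (hφ : ∀ (i : Fin k) a b, part a = i → part b = i → G.Adj a b → |φ i a b| ≤ B i) :
    ∃ c : (Fin (2 * k + 1) → W G) → ℝ, Good G (2 * k) c ∧
      (∀ w, |c w| ≤ ∏ i, 6 * 8 ^ Fintype.card V * B i) ∧
      ∀ a : (Fin (2 * k) → V) → ℝ, IsCyc (2 * k) G a →
        pair (gen G) a c = ∑ v : Fin (2 * k) → V, a v * PR k (fun i s t =>
          if part s = i ∧ part t = i then 2 * φ i s t else 0) v := by
  have hInP : ∀ (i : ℕ) (s : V), InP (fun v => 2 * part v) i s ↔ part s = i := by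
    intro i s
    change (2 * part s = 2 * i ∨ 2 * part s = 2 * i + 1) ↔ part s = i
    omega
  have hbd : ∀ w, |PC k (fun i => C2 {v | part v = i} (φ i) (hS i)) w| ≤
      ∏ i, 6 * 8 ^ Fintype.card V * B i := by
    intro w
    have h := t_B (W G) Unit k (fun i => 6 * 8 ^ Fintype.card V * B i)
      (fun i _ => C2 {v | part v = i} (φ i) (hS i))
      (fun i g₀ g₁ g₂ => by
        simpa using C2_bound (hS i) (hB0 i) (fun a b ha hb hab => hφ i a b ha hb hab) g₀ g₁ g₂) w
    simpa using h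
  refine ⟨PC k fun i => C2 {v | part v = i} (φ i) (hS i),
    good_PC t_U (fun v => 2 * part v) (fun v => by have := hpart v; omega) _ ?_
      (fun i => C2_coc (hS i)) (fun i => C2_deg (hS i)) _ hbd, hbd, fun a ha => ?_⟩
  · intro i s g₀ g₁ g₂
    rw [C2_gen]
    simp only [hInP, Set.mem_ofPred_eq]
    split_ifs <;> rfl
  · refine t_V V G (fun v => 2 * part v) k 0 _ (fun i s t => if part s = i ∧ part t = i then
      2 * φ i s t else 0) ?_ ?_ ?_ a ha.supp
    · intro i s g₀ g₁ g₂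
      rw [C2_gen]
      simp only [hInP, zero_add, Set.mem_ofPred_eq]
      split_ifs <;> rfl
    · intro i s t hst
      rw [C2_val (hS i) hst]
      simp only [hInP, zero_add, Set.mem_ofPred_eq]
      split_ifs <;> first | rfl | (exfalso; tauto)
    · intro i s t hst
      rw [if_neg]
      simpa [hInP] using hst

/-- the lower bound of the simplicial volume -/
theorem part_svol (k : ℕ) (V V₀ : Type) [Fintype V] [Fintype V₀] (G : SimpleGraph V)
    (G₀ : SimpleGraph V₀) (f : V → V₀) (hf : ∀ x y, G.Adj x y → f x = f y ∨ G₀.Adj (f x) (f y))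
    (part : V₀ → ℕ) (hpart : ∀ v, part v < k) (φ : Fin k → V₀ → V₀ → ℝ) (B : Fin k → ℝ)
    (hS : ∀ i : Fin k, SqFree G₀ {v | part v = i} (φ i)) (hB0 : ∀ i, 0 ≤ B i)
    (hφ : ∀ (i : Fin k) a b, part a = i → part b = i → G₀.Adj a b → |φ i a b| ≤ B i)
    (a : (Fin (2 * k) → V) → ℝ) (ha : IsCyc (2 * k) G a)
    (H : Subgroup (W G)) (hi : H.index ≠ 0) (hε : H ≤ (par G).ker) :
    (H.index : ℝ) * |∑ v : Fin (2 * k) → V₀, push f a v * PR k (fun i s t =>
      if part s = i ∧ part t = i then 2 * φ i s t else 0) v| ≤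
      2 ^ (2 * k) * (∏ i, 6 * 8 ^ Fintype.card V₀ * B i) * svol G (2 * k) a H := by
  obtain ⟨c₀, g₀, b₀, p₀⟩ := ex_part k V₀ G₀ part hpart φ B hS hB0 hφ
  obtain ⟨c, gc, bc, pc⟩ := pull f hf g₀ _ b₀
  have h := t_T V G (2 * k) a c _ gc bc H hi hε
  rw [pc a, p₀ _ (ha.push f hf)] at h
  exact h

end Pool.Agent.J4.H51.JC
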