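import Pool.Agent.J4.H51.JC.Conv

/-!
Dimension four: integrals over the links of edges.
-/

set_option autoImplicit false

open scoped Classical

namespace Pool.Agent.J4.H51.JC

open Pool.Agent.W907.SG (W cox)
open Pool.Agent.Q134.SV Pool.Agent.N13.QC

section

variable {V : Type} {G : SimpleGraph V} {s t : V} {A : Set V}

/-- the indicator of the edge `s t` -/
noncomputable def ind (s t u v : V) : ℝ := (if u = s ∧ v = t then 1 else 0) -
  (if u = t ∧ v = s then 1 else 0)

theorem ind_anti (s t u v : V) : ind s t u v = - ind s t v u := by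
  unfold ind
  by_cases h1 : u = s ∧ v = t <;> by_cases h2 : u = t ∧ v = s <;> simp [h1, h2, and_comm]

theorem ind_zero {s t u v : V} (h1 : ¬ (u = s ∧ v = t)) (h2 : ¬ (u = t ∧ v = s)) :
    ind s t u v = 0 := by
  unfold ind
  rw [if_neg h1, if_neg h2, sub_zero]

theorem ind_sqFree (hst : G.Adj s t) (hK : ∀ x, G.Adj s x → G.Adj t x → x ∈ A)
    (hsq : ∀ x y, x ∉ A → y ∉ A → G.Adj t x → G.Adj x y → G.Adj y s → x = s ∨ y = t) :
    SqFree G Aᶜ (ind s t) := by
  have key : ∀ p q r w, p ∉ A → q ∉ A → r ∉ A → w ∉ A → G.Adj p q → G.Adj q r → G.Adj r w →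
      G.Adj w p → p ≠ r → q ≠ w → ind s t p q = 0 := by
    intro p q r w hp hq hr hw h1 h2 h3 h4 h5 h6
    apply ind_zero
    · rintro ⟨rfl, rfl⟩
      rcases hsq r w hr hw h2 h3 h4 with h | h
      · exact h5 h.symm
      · exact h6 h.symm
    · rintro ⟨rfl, rfl⟩
      rcases hsq w r hw hr h4.symm h3.symm h2.symm with h | h
      · exact h6 h.symm
      · exact h5 h.symm
  refine ⟨ind_anti s t, ?_, ?_⟩
  · intro a b c ha hb hc h1 h2 h3
    have tri : ∀ p q r, r ∉ A → G.Adj q r → G.Adj p r → ind s t p q = 0 := by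
      intro p q r hr hq hp
      apply ind_zero
      · rintro ⟨rfl, rfl⟩; exact hr (hK r hp hq)
      · rintro ⟨rfl, rfl⟩; exact hr (hK r hq hp)
    rw [tri a b c hc h2 h3, tri b c a ha h3.symm h1.symm, tri a c b hb h2.symm h1]
    ring
  · intro a b z z' ha hb hz hz' h1 h2 h3 h4 _ _
    by_cases hab : a = b
    · subst hab
      rw [ind_anti s t z a, ind_anti s t z' a]; ring
    · by_cases hzz : z = z'
      · rw [hzz]
      · rw [key a z b z' ha hz hb hz' h1 h2 h4.symm h3.symm hab hzz,
          key z b z' a hz hb hz' ha h2 h4.symm h3.symm h1 hzz (fun e => hab e.symm),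
          key a z' b z ha hz' hb hz h3 h4 h2.symm h1.symm hab (fun e => hzz e.symm),
          key z' b z a hz' hb hz ha h4 h2.symm h1.symm h3 (fun e => hzz e.symm)
            (fun e => hab e.symm)]

end

/-- Dimension four: if the simplicial volume is zero then the integral over the link of an edge
`s t` of a function on the edges in `A` is zero which is additive on the triangles and squares in `A`,
if outside of `A` the edge is in no triangle and no square. -/
theorem dim4 (V : Type) [Fintype V] (G : SimpleGraph V) (a : (Fin 4 → V) → ℝ) (ha : IsCyc 4 G a)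
    (A : Set V) (s t : V) (hs : s ∉ A) (ht : t ∉ A) (hst : G.Adj s t)
    (hK : ∀ x, G.Adj s x → G.Adj t x → x ∈ A)
    (hsq : ∀ x y, x ∉ A → y ∉ A → G.Adj t x → G.Adj x y → G.Adj y s → x = s ∨ y = t)
    (φ : V → V → ℝ) (hφ : SqFree G A φ) (hne : ∑ x, ∑ y, a ![s, t, x, y] * φ x y ≠ 0) :
    ∃ c, Good G 4 c ∧ pair (gen G) a c ≠ 0 := by
  let part : V → ℕ := fun v => if v ∈ A then 1 else 0
  have hp1 : {v : V | part v = ((1 : Fin 2) : ℕ)} = A := by
    ext v; simp [part]
  have hp0 : {v : V | part v = ((0 : Fin 2) : ℕ)} = Aᶜ := by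
    ext v; simp [part]
  let Φ : Fin 2 → V → V → ℝ := ![ind s t, φ]
  have hS : ∀ i : Fin 2, SqFree G {v | part v = i} (Φ i) := by
    intro i
    fin_cases i
    · change SqFree G {v : V | part v = ((0 : Fin 2) : ℕ)} (ind s t)
      rw [hp0]; exact ind_sqFree hst hK hsq
    · change SqFree G {v : V | part v = ((1 : Fin 2) : ℕ)} φ
      rw [hp1]; exact hφ
  obtain ⟨c, hc, -, hcp⟩ := ex_part 2 V G part (fun v => by simp only [part]; split_ifs <;> omega) Φ
    (fun i => ∑ a, ∑ b, |Φ i a b|) hS (fun i => by positivity) (fun i a b _ _ _ => by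
      refine (Finset.single_le_sum (f := fun b => |Φ i a b|) (fun _ _ => abs_nonneg _)
        (Finset.mem_univ b)).trans ?_
      exact Finset.single_le_sum (f := fun a => ∑ b, |Φ i a b|)
        (fun _ _ => Finset.sum_nonneg fun _ _ => abs_nonneg _) (Finset.mem_univ a))
  refine ⟨c, hc, ?_⟩
  rw [hcp a ha]
  have key : ∑ v : Fin (2 * 2) → V, a v * PR 2 (fun i s t =>
      if part s = i ∧ part t = i then 2 * Φ i s t else 0) v =
      8 * ∑ x, ∑ y, a ![s, t, x, y] * φ x y := by
    have e1 := VE.sum_cons2 (m := 2) (fun v : Fin 4 → V => a v * PR 2 (fun i s t =>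
      if part s = i ∧ part t = i then 2 * Φ i s t else 0) v)
    have e2 : ∀ x y, ∑ u : Fin 2 → V, a (Fin.cons x (Fin.cons y u)) * PR 2 (fun i s t =>
        if part s = i ∧ part t = i then 2 * Φ i s t else 0)
          (Fin.cons x (Fin.cons y u) : Fin 4 → V) =
        ∑ z, ∑ w, a ![x, y, z, w] * ((2 * ind s t x y) * (2 * φ z w)) := by
      intro x y
      rw [VE.sum_cons2 (m := 0)]
      refine Finset.sum_congr rfl fun z _ => Finset.sum_congr rfl fun w _ => ?_
      rw [Fintype.sum_subsingleton _ (fun i : Fin 0 => i.elim0)]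
      have e3 : (Fin.cons x (Fin.cons y (Fin.cons z (Fin.cons w (fun i : Fin 0 => i.elim0)))) :
          Fin 4 → V) = ![x, y, z, w] := by
        funext i; fin_cases i <;> rfl
      rw [e3]
      by_cases h0 : a ![x, y, z, w] = 0
      · rw [h0, zero_mul, zero_mul]
      · congr 1
        have hadj := ha.supp _ h0
        change (if part x = ((0 : Fin 2) : ℕ) ∧ part y = ((0 : Fin 2) : ℕ) then
          2 * ind s t x y else 0) * ((if part z = ((1 : Fin 2) : ℕ) ∧ part w = ((1 : Fin 2) : ℕ) then
          2 * φ z w else 0) * 1) = _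
        rw [mul_one]
        by_cases hi : ind s t x y = 0
        · rw [hi]; simp
        · have hxy : (x = s ∧ y = t) ∨ (x = t ∧ y = s) := by
            by_contra hn
            rw [not_or] at hn
            exact hi (ind_zero hn.1 hn.2)
          have hz : G.Adj x z ∧ G.Adj y z := ⟨hadj 0 2 (by decide), hadj 1 2 (by decide)⟩
          have hw : G.Adj x w ∧ G.Adj y w := ⟨hadj 0 3 (by decide), hadj 1 3 (by decide)⟩
          have hzA : z ∈ A := by
            rcases hxy with ⟨rfl, rfl⟩ | ⟨rfl, rfl⟩
            · exact hK z hz.1 hz.2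
            · exact hK z hz.2 hz.1
          have hwA : w ∈ A := by
            rcases hxy with ⟨rfl, rfl⟩ | ⟨rfl, rfl⟩
            · exact hK w hw.1 hw.2
            · exact hK w hw.2 hw.1
          have hxA : part x = ((0 : Fin 2) : ℕ) ∧ part y = ((0 : Fin 2) : ℕ) := by
            rcases hxy with ⟨rfl, rfl⟩ | ⟨rfl, rfl⟩ <;> simp [part, hs, ht]
          have hzA' : part z = ((1 : Fin 2) : ℕ) ∧ part w = ((1 : Fin 2) : ℕ) := by
            simp [part, hzA, hwA]
          rw [if_pos hxA, if_pos hzA']
    rw [show (∑ v : Fin (2 * 2) → V, a v * PR 2 (fun i s t =>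
      if part s = i ∧ part t = i then 2 * Φ i s t else 0) v) = _ from e1]
    simp only [e2]
    have e4 : ∀ x y, ∑ z, ∑ w, a ![x, y, z, w] * ((2 * ind s t x y) * (2 * φ z w)) =
        4 * (ind s t x y * ∑ z, ∑ w, a ![x, y, z, w] * φ z w) := by
      intro x y
      simp only [Finset.mul_sum]
      exact Finset.sum_congr rfl fun z _ => Finset.sum_congr rfl fun w _ => by ring
    simp only [e4]
    have e5 : ∀ x y, ind s t x y * ∑ z, ∑ w, a ![x, y, z, w] * φ z w =
        (if x = s then (if y = t then ∑ z, ∑ w, a ![s, t, z, w] * φ z w else 0) else 0) +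
        (if x = t then (if y = s then ∑ z, ∑ w, a ![s, t, z, w] * φ z w else 0) else 0) := by
      intro x y
      have hsw : ∑ z, ∑ w, a ![t, s, z, w] * φ z w = - ∑ z, ∑ w, a ![s, t, z, w] * φ z w := by
        rw [← Finset.sum_neg_distrib]
        refine Finset.sum_congr rfl fun z _ => ?_
        rw [← Finset.sum_neg_distrib]
        refine Finset.sum_congr rfl fun w _ => ?_
        have h1 := ha.alt ![s, t, z, w] 0 1 (by decide)
        have h2 : ![s, t, z, w] ∘ Equiv.swap (0 : Fin 4) 1 = ![t, s, z, w] := by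
          funext i
          fin_cases i
          · simp [Equiv.swap_apply_left]
          · simp [Equiv.swap_apply_right]
          · simp [Equiv.swap_apply_of_ne_of_ne]
          · simp [Equiv.swap_apply_of_ne_of_ne]
        rw [h2] at h1
        rw [h1]; ring
      have hne := hst.ne
      by_cases h1 : x = s
      · subst h1
        by_cases h2 : y = t
        · subst h2
          simp [ind, hne]
        · rw [ind_zero (fun e => h2 e.2) (fun e => hne e.1)]
          simp [h2, hne]
      · by_cases h3 : x = t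
        · subst h3
          by_cases h4 : y = s
          · subst h4
            rw [hsw]
            simp [ind, hne, Ne.symm hne]
          · rw [ind_zero (fun e => h1 e.1) (fun e => h4 e.2)]
            simp [h4, h1]
        · rw [ind_zero (fun e => h1 e.1) (fun e => h3 e.1)]
          simp [h1, h3]
    have e6 : ∑ x, ∑ y, 4 * (ind s t x y * ∑ z, ∑ w, a ![x, y, z, w] * φ z w) =
        4 * ∑ x, ∑ y, (ind s t x y * ∑ z, ∑ w, a ![x, y, z, w] * φ z w) := by
      simp only [Finset.mul_sum]
    rw [e6]
    simp only [e5, Finset.sum_add_distrib]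
    simp
    ring
  rw [key]
  exact mul_ne_zero (by norm_num) hne

end Pool.Agent.J4.H51.JC
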