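import Pool.Agent.J4.H51.JC.Val
import Pool.Agent.N13.QC.All

/-!
Duality: a cycle on which all alternating functions vanish which are cocycles on the joins is a
boundary in the complex of the joins.
-/

set_option autoImplicit false

open scoped Classical

namespace Pool.Agent.J4.H51.JC

open Pool.Agent.W907.SG (W cox)
open Pool.Agent.Q134.SV

section

variable {V : Type} {n : ℕ}

theorem Alt.perm {b : (Fin n → V) → ℝ} (h : Alt b) (w : Fin n → V) (π : Equiv.Perm (Fin n)) :
    b (w ∘ π) = ((Equiv.Perm.sign π : ℤ) : ℝ) * b w := by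
  induction π using Equiv.Perm.swap_induction_on' with
  | one => simp
  | mul_swap s x y hxy hI =>
    rw [Equiv.Perm.coe_mul, ← Function.comp_assoc, h _ x y hxy, hI, map_mul,
      Equiv.Perm.sign_swap hxy]
    push_cast
    ring

theorem Alt.insert {b : (Fin (n + 1) → V) → ℝ} (h : Alt b) (k : Fin (n + 1)) (x : V)
    (u : Fin n → V) : b (k.insertNth (α := fun _ => V) x u) = (-1) ^ (k : ℕ) * b (Fin.cons x u) := by
  have h1 := h.perm (Fin.cons x u) k.cycleRange
  rw [Fin.cons_comp_cycleRange] at h1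
  rw [h1, Fin.sign_cycleRange]
  push_cast
  ring

variable [Fintype V]

/-- the boundary of an alternating chain -/
noncomputable def bdy (b : (Fin (n + 1) → V) → ℝ) : (Fin n → V) → ℝ := fun u => ∑ x, b (Fin.cons x u)

theorem adjoint {b : (Fin (n + 1) → V) → ℝ} (h : Alt b) (ψ : (Fin n → V) → ℝ) :
    ∑ w, b w * cobd ψ w = (n + 1) * ∑ u, bdy b u * ψ u := by
  unfold cobd
  simp only [Finset.mul_sum]
  rw [Finset.sum_comm]
  have h1 : ∀ k : Fin (n + 1), ∑ w : Fin (n + 1) → V,
      b w * ((-1 : ℝ) ^ (k : ℕ) * ψ (w ∘ k.succAbove)) = ∑ u, bdy b u * ψ u := by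
    intro k
    rw [← Equiv.sum_comp (Fin.insertNthEquiv (fun _ : Fin (n + 1) => V) k), Fintype.sum_prod_type,
      Finset.sum_comm]
    refine Finset.sum_congr rfl fun u _ => ?_
    unfold bdy
    rw [Finset.sum_mul]
    refine Finset.sum_congr rfl fun x _ => ?_
    have e1 : (Fin.insertNthEquiv (fun _ : Fin (n + 1) => V) k) (x, u) ∘ k.succAbove = u := by
      funext i
      simp [Fin.insertNthEquiv]
    rw [e1]
    have e2 : (Fin.insertNthEquiv (fun _ : Fin (n + 1) => V) k) (x, u) =
      k.insertNth (α := fun _ => V) x u := rfl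
    rw [e2, h.insert k x u]
    have : (-1 : ℝ) ^ (k : ℕ) * (-1 : ℝ) ^ (k : ℕ) = 1 := by rw [← mul_pow]; simp
    linear_combination (b (Fin.cons x u) * ψ u) * this
  rw [Finset.sum_congr rfl fun k _ => h1 k, Finset.sum_const, Finset.card_univ, Fintype.card_fin,
    nsmul_eq_mul]
  push_cast
  simp [Finset.mul_sum]

theorem evA_single {ψ : (Fin n → V) → ℝ} (h : Alt ψ) (u : Fin n → V) :
    evA ψ h (fun k => Pi.single (u k) (1 : ℝ)) = ψ u := by
  rw [evA_apply, Finset.sum_eq_single u]
  · simp
  · intro v _ hv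
    obtain ⟨k, hk⟩ := Function.ne_iff.1 hv
    rw [Finset.prod_eq_zero (Finset.mem_univ k), zero_mul]
    rw [Pi.single_eq_of_ne hk]
  · intro h; exact absurd (Finset.mem_univ _) h

theorem Alt.cob {ψ : (Fin n → V) → ℝ} (h : Alt ψ) : Alt (cobd ψ) := by
  let F := AlternatingMap.alternatizeUncurryFin
    (LinearMap.smulRight (∑ x : V, LinearMap.proj (R := ℝ) (φ := fun _ : V => ℝ) x) (evA ψ h))
  have hF : ∀ w : Fin (n + 1) → V, F (fun k => Pi.single (w k) (1 : ℝ)) = cobd ψ w := by
    intro w
    simp only [F]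
    rw [AlternatingMap.alternatizeUncurryFin_apply]
    unfold cobd
    refine Finset.sum_congr rfl fun k _ => ?_
    have e1 : (LinearMap.smulRight (∑ x : V, LinearMap.proj (R := ℝ) (φ := fun _ : V => ℝ) x)
        (evA ψ h)) (Pi.single (w k) (1 : ℝ)) = evA ψ h := by
      rw [LinearMap.smulRight_apply]
      simp [LinearMap.sum_apply]
    rw [e1]
    have e2 : (k.removeNth fun k => (Pi.single (w k) (1 : ℝ) : V → ℝ)) =
      fun i => Pi.single ((w ∘ k.succAbove) i) (1 : ℝ) := rfl
    rw [e2, evA_single]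
    simp
  intro w i j hij
  rw [← hF, ← hF, ← AlternatingMap.map_swap _ _ hij]
  rfl

omit [Fintype V] in
theorem Alt.add {a b : (Fin n → V) → ℝ} (ha : Alt a) (hb : Alt b) : Alt (a + b) := by
  intro v i j hij
  simp only [Pi.add_apply]
  rw [ha v i j hij, hb v i j hij]; ring

omit [Fintype V] in
theorem Alt.smul {a : (Fin n → V) → ℝ} (ha : Alt a) (r : ℝ) : Alt (r • a) := by
  intro v i j hij
  simp only [Pi.smul_apply, smul_eq_mul]
  rw [ha v i j hij]; ring

theorem Alt.bd {b : (Fin (n + 1) → V) → ℝ} (h : Alt b) : Alt (bdy b) := by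
  intro v i j hij
  unfold bdy
  rw [← Finset.sum_neg_distrib]
  refine Finset.sum_congr rfl fun x _ => ?_
  have h1 : (Fin.cons x (v ∘ Equiv.swap i j) : Fin (n + 1) → V) =
      (Fin.cons x v : Fin (n + 1) → V) ∘ Equiv.swap i.succ j.succ := by
    funext k
    refine Fin.cases ?_ (fun l => ?_) k
    · rw [Function.comp_apply, Equiv.swap_apply_of_ne_of_ne (Fin.succ_ne_zero i).symm
        (Fin.succ_ne_zero j).symm]
      simp
    · simp only [Fin.cons_succ, Function.comp_apply]
      rcases eq_or_ne l i with rfl | hi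
      · rw [Equiv.swap_apply_left, Equiv.swap_apply_left, Fin.cons_succ]
      · rcases eq_or_ne l j with rfl | hj
        · rw [Equiv.swap_apply_right, Equiv.swap_apply_right, Fin.cons_succ]
        · rw [Equiv.swap_apply_of_ne_of_ne hi hj, Equiv.swap_apply_of_ne_of_ne
            (fun e => hi (Fin.succ_injective _ e)) (fun e => hj (Fin.succ_injective _ e)),
            Fin.cons_succ]
  rw [h1, h _ _ _ (fun e => hij (Fin.succ_injective _ e))]

variable (G : SimpleGraph V)

/-- `a` is a boundary in the complex of the joins -/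
def JBd (a : (Fin n → V) → ℝ) : Prop :=
  ∃ b : (Fin (n + 1) → V) → ℝ, Alt b ∧ (∀ w, b w ≠ 0 → Jn G (Set.range w)) ∧ bdy b = a

variable {G}

omit [Fintype V] in
theorem range_swap (w : Fin n → V) (i j : Fin n) : Set.range (w ∘ Equiv.swap i j) = Set.range w :=
  (Equiv.swap i j).surjective.range_comp w

theorem dual {a : (Fin n → V) → ℝ} (ha : Alt a) (hn : ¬ JBd G a) : ∃ ψ : (Fin n → V) → ℝ, Alt ψ ∧
    (∀ w : Fin (n + 1) → V, Jn G (Set.range w) → cobd ψ w = 0) ∧ ∑ v, a v * ψ v ≠ 0 := by
  let S : Submodule ℝ (EuclideanSpace ℝ (Fin n → V)) :=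
    { carrier := {x | JBd G (fun v => x v)}
      add_mem' := by
        rintro x y ⟨b, h1, h2, h3⟩ ⟨b', h1', h2', h3'⟩
        refine ⟨b + b', h1.add h1', fun w hw => ?_, ?_⟩
        · by_cases h0 : b w = 0
          · refine h2' w fun h0' => hw ?_
            simp [h0, h0']
          · exact h2 w h0
        · funext u
          have e1 := congrFun h3 u
          have e2 := congrFun h3' u
          unfold bdy at e1 e2 ⊢
          simp only [Pi.add_apply, Finset.sum_add_distrib, e1, e2]
          rfl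
      zero_mem' := by
        refine ⟨0, fun v i j _ => by simp, fun w hw => absurd rfl hw, ?_⟩
        funext u
        simp [bdy]
      smul_mem' := by
        rintro r x ⟨b, h1, h2, h3⟩
        refine ⟨r • b, h1.smul r, fun w hw => h2 w fun h0 => hw (by simp [h0]), ?_⟩
        funext u
        have e1 := congrFun h3 u
        unfold bdy at e1 ⊢
        simp only [Pi.smul_apply, ← Finset.smul_sum, e1]
        rfl }
  obtain ⟨y, hy, z, hz, haz⟩ := S.exists_add_mem_mem_orthogonal (WithLp.toLp 2 a)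
  have haz' : ∀ v, a v = y v + z v := fun v => by
    have := congrArg (fun x : EuclideanSpace ℝ (Fin n → V) => x v) haz
    exact this
  obtain ⟨b, h1, h2, h3⟩ := hy
  have hyA : Alt (fun v => y v) := by rw [← h3]; exact h1.bd
  have hzA : Alt (fun v => z v) := by
    intro v i j hij
    have e1 := haz' (v ∘ Equiv.swap i j)
    have e2 := haz' v
    have e3 := ha v i j hij
    have e4 := hyA v i j hij
    simp only at e4 ⊢
    linarith
  have hinner : ∀ x : EuclideanSpace ℝ (Fin n → V), x ∈ S → ∑ v, x v * z v = 0 := by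
    intro x hx
    have := (Submodule.mem_orthogonal _ _).1 hz x hx
    rw [EuclideanSpace.inner_eq_star_dotProduct] at this
    simp only [dotProduct, star_trivial] at this
    rw [← this]
    exact Finset.sum_congr rfl fun v _ => by ring
  refine ⟨fun v => z v, hzA, ?_, ?_⟩
  · -- cocycle on joins
    let b' : (Fin (n + 1) → V) → ℝ := fun w =>
      if Jn G (Set.range w) then cobd (fun v => z v) w else 0
    have hb'A : Alt b' := by
      intro w i j hij
      simp only [b', range_swap]
      rw [hzA.cob w i j hij]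
      split_ifs <;> simp
    have hmem : (WithLp.toLp 2 (bdy b') : EuclideanSpace ℝ (Fin n → V)) ∈ S := by
      refine ⟨b', hb'A, fun w hw => ?_, rfl⟩
      by_contra hJ
      exact hw (by simp [b', hJ])
    have h4 := adjoint hb'A (fun v => z v)
    have h5 := hinner _ hmem
    simp only at h5
    rw [h5, mul_zero] at h4
    have h6 : ∀ w, b' w * cobd (fun v => z v) w = b' w ^ 2 := by
      intro w
      simp only [b']
      split_ifs
      · ring
      · ring
    simp only [h6] at h4
    rw [Finset.sum_eq_zero_iff_of_nonneg (fun w _ => sq_nonneg _)] at h4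
    intro w hw
    have h7 := h4 w (Finset.mem_univ w)
    simp only [b', if_pos hw] at h7
    exact pow_eq_zero_iff (two_ne_zero) |>.1 h7
  · intro h0
    have hyS : ∑ v, y v * z v = 0 := hinner y ⟨b, h1, h2, h3⟩
    have h4 : ∑ v, z v ^ 2 = 0 := by
      rw [← h0, ← sub_eq_zero, ← Finset.sum_sub_distrib]
      have : ∀ v, z v ^ 2 - a v * z v = - (y v * z v) := fun v => by rw [haz' v]; ring
      rw [Finset.sum_congr rfl fun v _ => this v, Finset.sum_neg_distrib, hyS, neg_zero]
    rw [Finset.sum_eq_zero_iff_of_nonneg (fun w _ => sq_nonneg _)] at h4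
    apply hn
    refine ⟨b, h1, h2, ?_⟩
    rw [h3]
    funext v
    have := pow_eq_zero_iff (two_ne_zero) |>.1 (h4 v (Finset.mem_univ v))
    rw [haz' v, this, add_zero]

end

section main

variable {V : Type} [Fintype V] {G : SimpleGraph V} {n : ℕ}

theorem pair_al {ψ : (Fin n → V) → ℝ} (h : Alt ψ) (hn : 2 ≤ n)
    (hψ : ∀ v : Fin (n + 1) → V, Jn G (Set.range v) → cobd ψ v = 0) {a : (Fin n → V) → ℝ}
    (ha : ∀ v : Fin n → V, a v ≠ 0 → ∀ i j, i ≠ j → G.Adj (v i) (v j)) :
    pair (gen G) a (al G ψ h) = 2 ^ n / (n.factorial : ℝ) * ∑ v, a v * ψ v := by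
  unfold pair
  rw [Finset.mul_sum]
  refine Finset.sum_congr rfl fun v _ => ?_
  by_cases h0 : a v = 0
  · rw [h0]; ring
  · rw [al_val (ha v h0) h hn hψ]; ring

/-- a nonzero class of the join complex gives a bounded class -/
theorem ex_good {a : (Fin n → V) → ℝ} (hn : 2 ≤ n) (ha : IsCyc n G a) (hJ : ¬ JBd G a) :
    ∃ c, Good G n c ∧ pair (gen G) a c ≠ 0 := by
  obtain ⟨ψ, h, hψ, hp⟩ := dual ha.alt hJ
  refine ⟨al G ψ h, al_good h hn hψ, ?_⟩
  rw [pair_al h hn hψ ha.supp]
  have : (2 : ℝ) ^ n / (n.factorial : ℝ) ≠ 0 := by positivity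
  exact mul_ne_zero this hp

end main

end Pool.Agent.J4.H51.JC
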