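import Pool.Agent.J4.H51.JC.Walls

/-!
The key lemma: if the directions at two different vertices to given points are the same, then they are
contained in a join, or the directions to two of the points are the same.
-/

set_option autoImplicit false

open scoped Classical

namespace Pool.Agent.J4.H51.JC

open Pool.Agent.W907.SG (W cox)
open Pool.Agent.Q134.SV

/-- `T` is contained in the join of two nonempty sets of vertices: each vertex of `A` is adjacent to
each vertex of `B` -/
def Jn {V : Type} (G : SimpleGraph V) (T : Set V) : Prop :=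
  ∃ A B : Set V, A.Nonempty ∧ B.Nonempty ∧ (∀ a ∈ A, ∀ b ∈ B, G.Adj a b) ∧ T ⊆ A ∪ B

variable {V : Type} [Fintype V] {G : SimpleGraph V}

/-- the directions at `v` to `g` -/
noncomputable def dr (v g : W G) : Finset V := Finset.univ.filter fun s => Sep G (wl G v s) v g

theorem mem_dr {v g : W G} {s : V} : s ∈ dr v g ↔ Sep G (wl G v s) v g := by
  simp [dr]

omit [Fintype V] in
theorem step_ne {v v' g : W G} {y : V} (h1 : Sep G (wl G v y) v g) (h2 : Sep G (wl G v' y) v' g)
    (hne : wl G v y ≠ wl G v' y) (h3 : ¬ Sep G (wl G v y) v v') (h4 : ¬ Sep G (wl G v' y) v v') :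
    False := by
  have h5 : Sep G (wl G v' y) v g := by
    have := sep_tri (wl G v' y) v v' g
    tauto
  have h6 := nocross (s := y) (t := y) (u := v') (v := v) (SimpleGraph.irrefl G) hne.symm h5
  have := sep_tri (wl G v y) v v' g
  tauto

omit [Fintype V] in
theorem step_eq {v v' u : W G} {x y : V} (he : wl G v x = wl G v' x) (hxy : ¬ G.Adj x y)
    (hk : wl G u y ≠ wl G v x) : ¬ Sep G (wl G u y) v v' := by
  intro h
  have h1 : ∀ g, Sep G (wl G u y) v g → ¬ Sep G (wl G v x) u g := fun g hg => nocross hxy hk hg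
  have h2 : ∀ g, Sep G (wl G u y) v' g → ¬ Sep G (wl G v x) u g := fun g hg => by
    rw [he]
    exact nocross hxy (by rw [← he]; exact hk) hg
  have h3 : ∀ g, ¬ Sep G (wl G v x) u g := by
    intro g
    have h4 := sep_tri (wl G u y) v g v'
    have h5 := h1 g
    have h6 := h2 g
    rw [sep_comm (g := v') (h := g)] at h6
    tauto
  have h7 := h3 v
  have h8 := h3 (v * gen G x)
  have h9 := sep_wl_self v x
  have := sep_tri (wl G v x) u v (v * gen G x)
  tauto

theorem step_one {ι : Type} [Nonempty ι] {g : ι → W G} {v v' : W G}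
    (ht : ∀ i, dr v (g i) = dr v' (g i)) (hno : ¬ ∃ s, ∀ i, s ∈ dr v (g i)) {s : V}
    (hs : Sep G (wl G v s) v v') : wl G v s ≠ wl G v' s ∧ ¬ Sep G (wl G v' s) v v' ∧
      ∃ i, s ∈ dr v (g i) := by
  have ht' : ∀ (s : V) (i : ι), Sep G (wl G v s) v (g i) ↔ Sep G (wl G v' s) v' (g i) := by
    intro s i
    rw [← mem_dr, ← mem_dr, ht i]
  have ha : wl G v s ≠ wl G v' s := by
    intro e
    obtain ⟨i⟩ := ‹Nonempty ι›
    have h1 := ht' s i
    rw [← e] at h1
    have := sep_tri (wl G v s) v v' (g i)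
    tauto
  refine ⟨ha, ?_, ?_⟩
  · intro h
    apply hno
    refine ⟨s, fun i => ?_⟩
    rw [mem_dr]
    by_contra hn
    have h1 : Sep G (wl G v s) v' (g i) := by
      have := sep_tri (wl G v s) v v' (g i)
      tauto
    have h2 := nocross (s := s) (t := s) (u := v) (v := v') (SimpleGraph.irrefl G) ha h1
    have h3 := sep_tri (wl G v' s) v v' (g i)
    have h4 := ht' s i
    tauto
  · by_contra hn
    push Not at hn
    simp only [mem_dr] at hn
    obtain ⟨t, h⟩ := gate (v := v') (Set.range g) _ (v * gen G s) s le_rfl (by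
      rw [wl_gen_self]
      have h1 := sep_tri (wl G v s) v (v * gen G s) v'
      have h2 := sep_wl_self v s
      tauto) (by
      rintro _ ⟨i, rfl⟩
      rw [wl_gen_self]
      have h1 := sep_tri (wl G v s) v v' (g i)
      have h2 := hn i
      tauto)
    apply hno
    refine ⟨t, fun i => ?_⟩
    rw [ht i, mem_dr]
    exact h _ ⟨i, rfl⟩

/-- The key lemma. -/
theorem key {ι : Type} (hι : ∀ f : ι → Prop, ∃ i j, i ≠ j ∧ (f i ↔ f j)) (g : ι → W G) {v v' : W G}
    (hne : v ≠ v') (ht : ∀ i, dr v (g i) = dr v' (g i)) :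
    (∃ i j, i ≠ j ∧ dr v (g i) = dr v (g j)) ∨ Jn G {s | ∃ i, s ∈ dr v (g i)} := by
  by_contra hcon
  rw [not_or] at hcon
  obtain ⟨hinj, hJ⟩ := hcon
  have hinj : ∀ i j, i ≠ j → dr v (g i) ≠ dr v (g j) := fun i j h e => hinj ⟨i, j, h, e⟩
  have : Nonempty ι := by
    obtain ⟨i, -⟩ := hι fun _ => True
    exact ⟨i⟩
  -- no common direction
  have hno : ¬ ∃ s, ∀ i, s ∈ dr v (g i) := by
    rintro ⟨s, hs⟩
    have h1 : ∀ i, ∀ t ∈ dr v (g i), t ≠ s → G.Adj s t := by
      intro i t ht' hts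
      exact dir_adj (mem_dr.1 (hs i)) (mem_dr.1 ht') hts.symm
    by_cases hB : ∃ t, G.Adj s t
    · apply hJ
      refine ⟨{s}, {t | G.Adj s t}, ⟨s, rfl⟩, hB, ?_, ?_⟩
      · rintro _ rfl b hb
        exact hb
      · rintro t ⟨i, hi⟩
        by_cases hts : t = s
        · exact Or.inl hts
        · exact Or.inr (h1 i t hi hts)
    · obtain ⟨i, j, hij, -⟩ := hι fun _ => True
      apply hinj i j hij
      have h2 : ∀ i, dr v (g i) = {s} := by
        intro i
        ext t
        rw [Finset.mem_singleton]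
        constructor
        · intro h
          by_contra hts
          exact hB ⟨t, h1 i t h hts⟩
        · rintro rfl; exact hs i
      rw [h2, h2]
  have hno' : ¬ ∃ s, ∀ i, s ∈ dr v' (g i) := by
    rintro ⟨s, hs⟩
    exact hno ⟨s, fun i => by rw [ht i]; exact hs i⟩
  have ht' : ∀ (s : V) (i : ι), Sep G (wl G v s) v (g i) ↔ Sep G (wl G v' s) v' (g i) := by
    intro s i
    rw [← mem_dr, ← mem_dr, ht i]
  have hI : ∀ s, Sep G (wl G v s) v v' → wl G v s ≠ wl G v' s ∧ ¬ Sep G (wl G v' s) v v' ∧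
      ∃ i, s ∈ dr v (g i) := fun s hs => step_one ht hno hs
  -- the walls at `v` and `v'` are different
  have hne2 : ∀ x i, x ∈ dr v (g i) → wl G v x ≠ wl G v' x := by
    intro x i hx he
    apply hJ
    obtain ⟨s, hs, -⟩ := exists_dir hne
    obtain ⟨hs1, -, hs3⟩ := hI s hs
    refine ⟨{x | (∃ i, x ∈ dr v (g i)) ∧ wl G v x = wl G v' x},
      {x | (∃ i, x ∈ dr v (g i)) ∧ wl G v x ≠ wl G v' x}, ⟨x, ⟨i, hx⟩, he⟩, ⟨s, hs3, hs1⟩, ?_, ?_⟩
    · rintro a ⟨-, ha⟩ b ⟨⟨j, hj⟩, hb⟩
      by_contra hab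
      have hne : b ≠ a := by rintro rfl; exact hb ha
      rw [mem_dr] at hj
      refine step_ne hj ((ht' b j).1 hj) hb ?_ ?_
      · exact step_eq ha hab (fun e => hne (wl_label e))
      · exact step_eq ha hab (fun e => hne (wl_label e))
    · rintro a ha
      by_cases h : wl G v a = wl G v' a
      · exact Or.inl ⟨ha, h⟩
      · exact Or.inr ⟨ha, h⟩
  have hIJ : ∀ x i, x ∈ dr v (g i) → Sep G (wl G v x) v v' ∨ Sep G (wl G v' x) v v' := by
    intro x i hx
    by_contra h
    rw [not_or] at h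
    rw [mem_dr] at hx
    exact step_ne hx ((ht' x i).1 hx) (hne2 x i (mem_dr.2 hx)) h.1 h.2
  -- two of the sets of directions are the same
  let TI : Set V := {x | (∃ i, x ∈ dr v (g i)) ∧ Sep G (wl G v x) v v'}
  let TJ : Set V := {x | (∃ i, x ∈ dr v (g i)) ∧ Sep G (wl G v' x) v v'}
  have hdisj : ∀ a b, Sep G (wl G v a) v v' → Sep G (wl G v' b) v v' → a ≠ b := by
    rintro a b ha hb rfl
    exact (hI a ha).2.1 hb
  let A : ι → Set V := fun i => {x | (x ∈ TI ∧ x ∈ dr v (g i)) ∨ (x ∈ TJ ∧ x ∉ dr v (g i))}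
  let B : ι → Set V := fun i => {x | (x ∈ TI ∧ x ∉ dr v (g i)) ∨ (x ∈ TJ ∧ x ∈ dr v (g i))}
  have hAB : ∀ i, ¬ (A i).Nonempty ∨ ¬ (B i).Nonempty := by
    intro i
    by_contra h
    rw [not_or, not_not, not_not] at h
    apply hJ
    refine ⟨A i, B i, h.1, h.2, ?_, ?_⟩
    · rintro a (⟨⟨-, ha⟩, hai⟩ | ⟨⟨-, ha⟩, hai⟩) b (⟨⟨-, hb⟩, hbi⟩ | ⟨⟨-, hb⟩, hbi⟩)
      · exact dir_adj ha hb (by rintro rfl; exact hbi hai)
      · exact dir_adj (mem_dr.1 hai) (mem_dr.1 hbi) (hdisj a b ha hb)
      · -- the crossing case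
        by_contra hadj
        have hba : b ≠ a := hdisj b a hb ha
        rw [mem_dr] at hbi
        have hai' : ¬ Sep G (wl G v' a) v' (g i) := by
          rw [← ht' a i, ← mem_dr]; exact hai
        have h1 : Sep G (wl G v' a) v (g i) := by
          have := sep_tri (wl G v' a) v v' (g i)
          tauto
        have h2 := nocross (s := b) (t := a) (u := v') (v := v) (fun h => hadj h.symm)
          (fun e => hba (wl_label e).symm) h1
        have := sep_tri (wl G v b) v v' (g i)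
        tauto
      · exact dir_adj (sep_comm.1 ha) (sep_comm.1 hb) (by rintro rfl; exact hai hbi)
    · rintro x ⟨j, hj⟩
      rcases hIJ x j hj with h1 | h1
      · by_cases h2 : x ∈ dr v (g i)
        · exact Or.inl (Or.inl ⟨⟨⟨j, hj⟩, h1⟩, h2⟩)
        · exact Or.inr (Or.inl ⟨⟨⟨j, hj⟩, h1⟩, h2⟩)
      · by_cases h2 : x ∈ dr v (g i)
        · exact Or.inr (Or.inr ⟨⟨⟨j, hj⟩, h1⟩, h2⟩)
        · exact Or.inl (Or.inr ⟨⟨⟨j, hj⟩, h1⟩, h2⟩)
  have hTJ : ∀ i, ¬ (A i).Nonempty → ∀ x, x ∈ dr v (g i) ↔ x ∈ TJ := by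
    intro i hi x
    rw [Set.not_nonempty_iff_eq_empty, Set.eq_empty_iff_forall_notMem] at hi
    have h1 := hi x
    simp only [A, Set.mem_ofPred_eq, not_or, not_and, not_not] at h1
    constructor
    · intro hx
      rcases hIJ x i hx with h2 | h2
      · exact absurd hx (h1.1 ⟨⟨i, hx⟩, h2⟩)
      · exact ⟨⟨i, hx⟩, h2⟩
    · exact h1.2
  have hTI : ∀ i, ¬ (B i).Nonempty → ∀ x, x ∈ dr v (g i) ↔ x ∈ TI := by
    intro i hi x
    rw [Set.not_nonempty_iff_eq_empty, Set.eq_empty_iff_forall_notMem] at hi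
    have h1 := hi x
    simp only [B, Set.mem_ofPred_eq, not_or, not_and, not_not] at h1
    constructor
    · intro hx
      rcases hIJ x i hx with h2 | h2
      · exact ⟨⟨i, hx⟩, h2⟩
      · exact absurd hx (h1.2 ⟨⟨i, hx⟩, h2⟩)
    · exact h1.1
  obtain ⟨i, j, hij, hf⟩ := hι fun i => (A i).Nonempty
  apply hinj i j hij
  ext x
  by_cases hi : (A i).Nonempty
  · rw [hTI i (by have := hAB i; tauto), hTI j (by have := hAB j; tauto)]
  · rw [hTJ i hi, hTJ j (by tauto)]

/-- the only vertex with no direction to `g` is `g` -/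
theorem dr_eq_empty {v g : W G} : dr v g = ∅ ↔ v = g := by
  constructor
  · intro h
    by_contra hne
    obtain ⟨s, hs, -⟩ := exists_dir hne
    have := mem_dr.2 hs
    rw [h] at this
    exact absurd this (Finset.notMem_empty s)
  · rintro rfl
    ext s
    rw [mem_dr]
    simp [sep_self]

/-- directions are invariant under left multiplication -/
theorem dr_mul (x v g : W G) : dr (x * v) (x * g) = dr v g := by
  ext s
  rw [mem_dr, mem_dr, wl_mul, sep_mul]

end Pool.Agent.J4.H51.JC
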