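import Pool.Agent.J4.H51.JC.Coch

/-!
The values of the cochain at the simplices of the flag complex.
-/

set_option autoImplicit false

open scoped Classical

namespace Pool.Agent.J4.H51.JC

open Pool.Agent.W907.SG (W cox)
open Pool.Agent.Q134.SV

section

variable {V : Type} [Fintype V] {G : SimpleGraph V} {n : ℕ}

/-- a common direction -/
theorem common {ι : Type} (hι : ∃ i j : ι, i ≠ j) {g : ι → W G} {v : W G}
    (h : ∃ s, ∀ i, s ∈ dr v (g i)) :
    (∃ i j, i ≠ j ∧ dr v (g i) = dr v (g j)) ∨ Jn G {s | ∃ i, s ∈ dr v (g i)} := by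
  obtain ⟨s, hs⟩ := h
  have h1 : ∀ i, ∀ t ∈ dr v (g i), t ≠ s → G.Adj s t := by
    intro i t ht' hts
    exact dir_adj (mem_dr.1 (hs i)) (mem_dr.1 ht') hts.symm
  by_cases hB : ∃ t, G.Adj s t
  · refine Or.inr ⟨{s}, {t | G.Adj s t}, ⟨s, rfl⟩, hB, ?_, ?_⟩
    · rintro _ rfl b hb
      exact hb
    · rintro t ⟨i, hi⟩
      by_cases hts : t = s
      · exact Or.inl hts
      · exact Or.inr (h1 i t hi hts)
  · obtain ⟨i, j, hij⟩ := hι
    refine Or.inl ⟨i, j, hij, ?_⟩
    have h2 : ∀ i, dr v (g i) = {s} := by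
      intro i
      ext t
      rw [Finset.mem_singleton]
      constructor
      · intro h
        by_contra hts
        exact hB ⟨t, h1 i t h hts⟩
      · rintro rfl; exact hs i
    rw [h2, h2]

variable {s : Fin n → V} (hs : ∀ i j, i ≠ j → G.Adj (s i) (s j))

include hs

omit [Fintype V] in
theorem s_inj : Function.Injective s := by
  intro i j hij
  by_contra hne
  exact (hs i j hne).ne hij

omit [Fintype V] in
theorem gen_s_comm (i j : Fin n) : gen G (s i) * gen G (s j) = gen G (s j) * gen G (s i) := by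
  rcases eq_or_ne i j with rfl | h
  · rfl
  · exact gen_comm G (hs i j h)

omit [Fintype V] in
theorem pp_comm (j : Fin n) (i : Fin (n + 1)) :
    Fin.partialProd (gen G ∘ s) i * gen G (s j) = gen G (s j) * Fin.partialProd (gen G ∘ s) i := by
  refine Fin.induction ?_ (fun k hk => ?_) i
  · rw [Fin.partialProd_zero, one_mul, mul_one]
  · rw [Fin.partialProd_succ, mul_assoc, Function.comp_apply, gen_s_comm hs, ← mul_assoc, hk,
      mul_assoc]

omit [Fintype V] in
theorem wl_pp (j : Fin n) (i : Fin (n + 1)) :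
    wl G (Fin.partialProd (gen G ∘ s) i) (s j) = gen G (s j) := by
  unfold wl
  rw [pp_comm hs, mul_assoc, mul_inv_cancel, mul_one]

omit [Fintype V] in
theorem sep_pp_one (r : W G) (b : Fin (n + 1)) : Sep G r 1 (Fin.partialProd (gen G ∘ s) b) ↔
    ∃ l : Fin n, (l : ℕ) < b ∧ r = gen G (s l) := by
  refine Fin.induction ?_ (fun k hk => ?_) b
  · rw [Fin.partialProd_zero]
    constructor
    · intro h; exact absurd h (sep_self _ _)
    · rintro ⟨l, hl, -⟩; simp at hl
  · rw [Fin.partialProd_succ, sep_tri _ _ (Fin.partialProd (gen G ∘ s) k.castSucc), hk,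
      Function.comp_apply, sep_wl, wl_pp hs]
    have hex : ∀ l : Fin n, (l : ℕ) < k → gen G (s l) ≠ gen G (s k) := by
      intro l hl e
      rw [← wl_one (G := G) (s l), ← wl_one (G := G) (s k)] at e
      have := s_inj hs (wl_label e)
      rw [this] at hl
      exact lt_irrefl _ hl
    constructor
    · intro h
      by_cases h1 : r = gen G (s k)
      · exact ⟨k, by simp, h1⟩
      · obtain ⟨l, hl, hr⟩ : ∃ l : Fin n, (l : ℕ) < k.castSucc ∧ r = gen G (s l) := by tauto
        exact ⟨l, by simp at hl ⊢; omega, hr⟩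
    · rintro ⟨l, hl, hr⟩
      simp only [Fin.val_succ] at hl
      rcases Nat.lt_succ_iff_lt_or_eq.1 hl with h1 | h1
      · have h2 : r ≠ gen G (s k) := by rw [hr]; exact hex l h1
        have h3 : ∃ l : Fin n, (l : ℕ) < k.castSucc ∧ r = gen G (s l) := ⟨l, by simpa using h1, hr⟩
        exact fun e => h2 (e.1 h3)
      · have h2 : l = k := Fin.ext h1
        subst h2
        have h3 : ¬ ∃ l' : Fin n, (l' : ℕ) < l.castSucc ∧ r = gen G (s l') := by
          rintro ⟨l', hl', hr'⟩
          exact hex l' (by simpa using hl') (hr'.symm.trans hr)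
        exact fun e => h3 (e.2 hr)

omit [Fintype V] in
theorem sep_pp (r : W G) (a b : Fin (n + 1)) : Sep G r (Fin.partialProd (gen G ∘ s) a)
    (Fin.partialProd (gen G ∘ s) b) ↔ ∃ l : Fin n, ¬ ((l : ℕ) < a ↔ (l : ℕ) < b) ∧
      r = gen G (s l) := by
  rw [sep_tri _ _ 1, sep_comm, sep_pp_one hs, sep_pp_one hs]
  have huniq : ∀ l l' : Fin n, r = gen G (s l) → r = gen G (s l') → l = l' := by
    intro l l' h1 h2
    have e := h1.symm.trans h2
    rw [← wl_one (G := G) (s l), ← wl_one (G := G) (s l')] at e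
    exact s_inj hs (wl_label e)
  constructor
  · intro h
    by_cases h1 : ∃ l : Fin n, (l : ℕ) < a ∧ r = gen G (s l)
    · obtain ⟨l, hl, hr⟩ := h1
      refine ⟨l, ?_, hr⟩
      intro h2
      apply h
      exact ⟨fun _ => ⟨l, h2.1 hl, hr⟩, fun _ => ⟨l, hl, hr⟩⟩
    · by_cases h3 : ∃ l : Fin n, (l : ℕ) < b ∧ r = gen G (s l)
      · obtain ⟨l, hl, hr⟩ := h3
        refine ⟨l, ?_, hr⟩
        intro h2
        exact h1 ⟨l, h2.2 hl, hr⟩
      · exact absurd ⟨fun h => absurd h h1, fun h => absurd h h3⟩ h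
  · rintro ⟨l, hl, hr⟩ h
    apply hl
    constructor
    · intro h1
      obtain ⟨l', hl', hr'⟩ := h.1 ⟨l, h1, hr⟩
      rwa [huniq l l' hr hr']
    · intro h1
      obtain ⟨l', hl', hr'⟩ := h.2 ⟨l, h1, hr⟩
      rwa [huniq l l' hr hr']

theorem mem_dr_pp (a b : Fin (n + 1)) (x : V) : x ∈ dr (Fin.partialProd (gen G ∘ s) a)
    (Fin.partialProd (gen G ∘ s) b) ↔ ∃ l : Fin n, ¬ ((l : ℕ) < a ↔ (l : ℕ) < b) ∧ x = s l := by
  rw [mem_dr, sep_pp hs]
  constructor
  · rintro ⟨l, hl, e⟩
    refine ⟨l, hl, ?_⟩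
    rw [← wl_one (G := G) (s l)] at e
    exact wl_label e
  · rintro ⟨l, hl, rfl⟩
    exact ⟨l, hl, wl_pp hs l a⟩

theorem pp_inj : Function.Injective (Fin.partialProd (gen G ∘ s)) := by
  intro a b hab
  have h1 : dr (Fin.partialProd (gen G ∘ s) a) (Fin.partialProd (gen G ∘ s) b) = ∅ :=
    dr_eq_empty.2 hab
  by_contra hne
  have hne' : (a : ℕ) ≠ b := fun e => hne (Fin.ext e)
  have h2 : ∃ l : Fin n, ¬ ((l : ℕ) < a ↔ (l : ℕ) < b) := by
    have ha := a.2
    have hb := b.2
    refine ⟨⟨min a b, by omega⟩, ?_⟩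
    simp only
    rcases lt_or_gt_of_ne hne' with h | h
    · rw [min_eq_left h.le]; omega
    · rw [min_eq_right h.le]; omega
  obtain ⟨l, hl⟩ := h2
  have h3 := (mem_dr_pp hs a b (s l)).2 ⟨l, hl, rfl⟩
  rw [h1] at h3
  exact absurd h3 (Finset.notMem_empty _)

omit [Fintype V] hs in
theorem par_pp (a : Fin (n + 1)) : ((par G (Fin.partialProd (gen G ∘ s) a) : ℤ) : ℝ) =
    (-1) ^ (a : ℕ) := by
  refine Fin.induction ?_ (fun k hk => ?_) a
  · simp [Fin.partialProd_zero]
  · rw [Fin.val_castSucc] at hk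
    rw [Fin.partialProd_succ, map_mul, Function.comp_apply, par_gen, Fin.val_succ, pow_succ, ← hk]
    simp

/-- the local term vanishes outside of the points -/
theorem FF_out {ψ : (Fin n → V) → ℝ} (h : Alt ψ) (hn : 2 ≤ n)
    (hψ : ∀ v : Fin (n + 1) → V, Jn G (Set.range v) → cobd ψ v = 0) (v : W G)
    (hv : ∀ i, v ≠ Fin.partialProd (gen G ∘ s) i) :
    (FF ψ h fun i => dr v (Fin.partialProd (gen G ∘ s) i)) = 0 := by
  have hne : ∀ i, (dr v (Fin.partialProd (gen G ∘ s) i)).Nonempty := by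
    intro i
    rw [Finset.nonempty_iff_ne_empty]
    exact fun e => hv i (dr_eq_empty.1 e)
  have hfin : ∀ {P : Prop}, ((∃ i j : Fin (n + 1), i ≠ j ∧
      dr v (Fin.partialProd (gen G ∘ s) i) = dr v (Fin.partialProd (gen G ∘ s) j)) ∨
      Jn G {x | ∃ i, x ∈ dr v (Fin.partialProd (gen G ∘ s) i)}) →
      (FF ψ h fun i => dr v (Fin.partialProd (gen G ∘ s) i)) = 0 := by
    rintro - (⟨i, j, hij, e⟩ | hJ)
    · exact FF_of_eq h hij e
    · exact FF_join (G := G) h hψ hne hJ
  by_cases hA : ∃ j : Fin n, wl G v (s j) ≠ gen G (s j)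
  · obtain ⟨j, hj⟩ := hA
    refine FF_of_eq h (i := j.castSucc) (j := j.succ) (Fin.castSucc_lt_succ).ne ?_
    ext x
    rw [mem_dr, mem_dr, sep_tri _ v (Fin.partialProd (gen G ∘ s) j.castSucc)
      (Fin.partialProd (gen G ∘ s) j.succ)]
    have h1 : ¬ Sep G (wl G v x) (Fin.partialProd (gen G ∘ s) j.castSucc)
        (Fin.partialProd (gen G ∘ s) j.succ) := by
      rw [Fin.partialProd_succ, Function.comp_apply, sep_wl, wl_pp hs]
      intro e
      apply hj
      have e' := e
      rw [← wl_one (G := G) (s j)] at e'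
      rw [← wl_label e']
      rw [e, wl_label e']
    tauto
  · push Not at hA
    by_cases hB : ∃ a ∈ dr v (Fin.partialProd (gen G ∘ s) 0), ∀ l, a ≠ s l
    · obtain ⟨a, ha, hal⟩ := hB
      refine hfin (P := True) (common ⟨0, Fin.last n, ?_⟩ ⟨a, fun i => ?_⟩)
      · intro e
        have := congrArg Fin.val e
        simp at this
        omega
      · rw [mem_dr] at ha ⊢
        rw [sep_tri _ v (Fin.partialProd (gen G ∘ s) 0)]
        have h1 : ¬ Sep G (wl G v a) (Fin.partialProd (gen G ∘ s) 0)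
            (Fin.partialProd (gen G ∘ s) i) := by
          rw [sep_pp hs]
          rintro ⟨l, -, e⟩
          rw [← wl_one (G := G) (s l)] at e
          exact hal l (wl_label e)
        tauto
    · push Not at hB
      refine hfin (P := True) (Or.inr ?_)
      have h0 : 0 < n := by omega
      have h1 : 1 < n := by omega
      refine ⟨{s ⟨0, h0⟩}, {x | ∃ l : Fin n, l ≠ ⟨0, h0⟩ ∧ x = s l}, ⟨_, rfl⟩,
        ⟨s ⟨1, h1⟩, ⟨1, h1⟩, by simp, rfl⟩, ?_, ?_⟩
      · rintro _ rfl _ ⟨l, hl, rfl⟩
        exact hs _ _ hl.symm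
      · rintro x ⟨i, hi⟩
        have hx : ∃ l, x = s l := by
          by_cases hx0 : x ∈ dr v (Fin.partialProd (gen G ∘ s) 0)
          · exact hB x hx0
          · rw [mem_dr] at hi hx0
            rw [sep_tri _ v (Fin.partialProd (gen G ∘ s) 0)] at hi
            have h2 : Sep G (wl G v x) (Fin.partialProd (gen G ∘ s) 0)
              (Fin.partialProd (gen G ∘ s) i) := by tauto
            rw [sep_pp hs] at h2
            obtain ⟨l, -, e⟩ := h2
            rw [← wl_one (G := G) (s l)] at e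
            exact ⟨l, wl_label e⟩
        obtain ⟨l, rfl⟩ := hx
        by_cases hl : l = ⟨0, h0⟩
        · exact Or.inl (by rw [hl]; rfl)
        · exact Or.inr ⟨l, hl, rfl⟩

/-- the barycentric coordinates -/
theorem mem_row (i : Fin (n + 1)) (k : Fin n) (x : V) :
    x ∈ dr (Fin.partialProd (gen G ∘ s) i) (Fin.partialProd (gen G ∘ s) (i.succAbove k)) ↔
      ∃ l : Fin n, x = s l ∧ (((k : ℕ) < i ∧ (k : ℕ) ≤ l ∧ (l : ℕ) < i) ∨
        ((i : ℕ) ≤ k ∧ (i : ℕ) ≤ l ∧ (l : ℕ) ≤ k)) := by
  rw [mem_dr_pp hs]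
  refine exists_congr fun l => ?_
  rw [and_comm]
  refine and_congr_right fun _ => ?_
  by_cases h : (k : ℕ) < i
  · rw [Fin.succAbove_of_castSucc_lt _ _ (by rw [Fin.lt_def]; simpa using h)]
    simp only [Fin.val_castSucc]
    omega
  · rw [Fin.succAbove_of_le_castSucc _ _ (by rw [Fin.le_def]; simpa using h)]
    simp only [Fin.val_succ]
    omega

theorem card_row (i : Fin (n + 1)) (k : Fin n) :
    (dr (Fin.partialProd (gen G ∘ s) i) (Fin.partialProd (gen G ∘ s) (i.succAbove k))).card =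
      if (k : ℕ) < i then (i : ℕ) - k else (k : ℕ) + 1 - i := by
  have h1 : dr (Fin.partialProd (gen G ∘ s) i) (Fin.partialProd (gen G ∘ s) (i.succAbove k)) =
      (Finset.univ.filter fun l : Fin n => ((k : ℕ) < i ∧ (k : ℕ) ≤ l ∧ (l : ℕ) < i) ∨
        ((i : ℕ) ≤ k ∧ (i : ℕ) ≤ l ∧ (l : ℕ) ≤ k)).image s := by
    ext x
    rw [mem_row hs, Finset.mem_image]
    constructor
    · rintro ⟨l, rfl, h⟩; exact ⟨l, by simpa using h, rfl⟩
    · rintro ⟨l, h, rfl⟩; exact ⟨l, rfl, by simpa using h⟩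
  rw [h1, Finset.card_image_of_injective _ (s_inj hs)]
  have hi := i.2
  have hk := k.2
  split_ifs with h
  · rw [← Nat.card_Ico]
    refine Finset.card_bij (fun l _ => (l : ℕ)) ?_ ?_ ?_
    · intro l hl
      simp only [Finset.mem_filter, Finset.mem_univ, true_and] at hl
      rw [Finset.mem_Ico]; omega
    · intro a _ b _ hab; exact Fin.ext hab
    · intro m hm
      rw [Finset.mem_Ico] at hm
      exact ⟨⟨m, by omega⟩, by simp only [Finset.mem_filter, Finset.mem_univ, true_and]; omega, rfl⟩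
  · rw [← Nat.card_Ico]
    refine Finset.card_bij (fun l _ => (l : ℕ)) ?_ ?_ ?_
    · intro l hl
      simp only [Finset.mem_filter, Finset.mem_univ, true_and] at hl
      rw [Finset.mem_Ico]; omega
    · intro a _ b _ hab; exact Fin.ext hab
    · intro m hm
      rw [Finset.mem_Ico] at hm
      exact ⟨⟨m, by omega⟩, by simp only [Finset.mem_filter, Finset.mem_univ, true_and]; omega, rfl⟩

omit [Fintype V] hs in
theorem prod_fact (n i : ℕ) (hi : i ≤ n) : ∏ k : Fin n, (((if (k : ℕ) < i then i - (k : ℕ) else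
    (k : ℕ) + 1 - i : ℕ) : ℝ))⁻¹ = ((i.factorial : ℝ) * ((n - i).factorial : ℝ))⁻¹ := by
  rw [Finset.prod_inv_distrib]
  congr 1
  rw [Fin.prod_univ_eq_prod_range (fun k : ℕ => ((if k < i then i - k else k + 1 - i : ℕ) : ℝ)) n]
  obtain ⟨m, rfl⟩ := Nat.exists_eq_add_of_le hi
  rw [Finset.prod_range_add, Nat.add_sub_cancel_left]
  congr 1
  · rw [← Finset.prod_range_reflect, ← Finset.prod_range_add_one_eq_factorial]
    push_cast
    refine Finset.prod_congr rfl fun k hk => ?_
    rw [Finset.mem_range] at hk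
    rw [if_pos (by omega)]
    have : i - (i - 1 - k) = k + 1 := by omega
    rw [this]
    push_cast
    ring
  · rw [← Finset.prod_range_add_one_eq_factorial]
    push_cast
    refine Finset.prod_congr rfl fun k _ => ?_
    rw [if_neg (by omega)]
    have : i + k + 1 - i = k + 1 := by omega
    rw [this]
    push_cast
    ring

theorem evA_row {ψ : (Fin n → V) → ℝ} (h : Alt ψ) (i : Fin (n + 1)) :
    evA ψ h (bary ∘ ((fun j => dr (Fin.partialProd (gen G ∘ s) i)
      (Fin.partialProd (gen G ∘ s) j)) ∘ i.succAbove)) =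
      (((i : ℕ).factorial : ℝ) * ((n - i).factorial : ℝ))⁻¹ * ψ s := by
  rw [evA_apply, Finset.sum_eq_single s]
  · congr 1
    rw [← prod_fact n i (by omega)]
    refine Finset.prod_congr rfl fun k _ => ?_
    simp only [Function.comp_apply]
    unfold bary
    rw [if_pos, card_row hs]
    rw [mem_row hs]
    refine ⟨k, rfl, ?_⟩
    omega
  · intro v _ hv
    by_cases h0 : ψ v = 0
    · rw [h0, mul_zero]
    have hinj : Function.Injective v := by
      intro a b hab
      by_contra hne
      exact h0 (h.self v hne hab)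
    by_contra hne
    have h1 : ∀ k, v k ∈ dr (Fin.partialProd (gen G ∘ s) i)
        (Fin.partialProd (gen G ∘ s) (i.succAbove k)) := by
      intro k
      refine bary_ne fun e => hne ?_
      rw [Finset.prod_eq_zero (Finset.mem_univ k) e, zero_mul]
    simp only [mem_row hs] at h1
    choose l hl1 hl2 using h1
    have hlinj : Function.Injective l := by
      intro a b hab
      apply hinj
      rw [hl1, hl1, hab]
    have hA : ∀ m : ℕ, ∀ k : Fin n, (k : ℕ) + m + 1 = i → l k = k := by
      intro m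
      induction m using Nat.strong_induction_on with
      | _ m ih =>
        intro k hk
        have h2 := hl2 k
        by_contra hne
        have hne' : (l k : ℕ) ≠ k := fun e => hne (Fin.ext e)
        have h3 := ih (i - 1 - l k) (by omega) (l k) (by omega)
        exact hne (hlinj h3)
    have hB : ∀ m : ℕ, ∀ k : Fin n, (k : ℕ) = i + m → l k = k := by
      intro m
      induction m using Nat.strong_induction_on with
      | _ m ih =>
        intro k hk
        have h2 := hl2 k
        by_contra hne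
        have hne' : (l k : ℕ) ≠ k := fun e => hne (Fin.ext e)
        have h3 := ih (l k - i) (by omega) (l k) (by omega)
        exact hne (hlinj h3)
    apply hv
    funext k
    rw [hl1 k]
    congr 1
    by_cases hk : (k : ℕ) < i
    · exact hA (i - 1 - k) k (by omega)
    · exact hB (k - i) k (by omega)
  · intro h; exact absurd (Finset.mem_univ _) h

/-- the value at a simplex -/
theorem al_val {ψ : (Fin n → V) → ℝ} (h : Alt ψ) (hn : 2 ≤ n)
    (hψ : ∀ v : Fin (n + 1) → V, Jn G (Set.range v) → cobd ψ v = 0) :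
    al G ψ h (Fin.partialProd (gen G ∘ s)) = 2 ^ n / (n.factorial : ℝ) * ψ s := by
  rw [al_eq_sum h _ (Finset.univ.image (Fin.partialProd (gen G ∘ s))),
    Finset.sum_image (fun a _ b _ e => pp_inj hs e)]
  · have h1 : ∀ i : Fin (n + 1), ((par G (Fin.partialProd (gen G ∘ s) i) : ℤ) : ℝ) *
        (FF ψ h fun j => dr (Fin.partialProd (gen G ∘ s) i) (Fin.partialProd (gen G ∘ s) j)) =
        (((i : ℕ).factorial : ℝ) * ((n - i).factorial : ℝ))⁻¹ * ψ s := by
      intro i
      rw [par_pp, FF_empty h (i := i) (dr_eq_empty.2 rfl), evA_row hs h i, ← mul_assoc, ← mul_pow]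
      simp
    rw [Finset.sum_congr rfl fun i _ => h1 i, ← Finset.sum_mul]
    congr 1
    rw [Fin.sum_univ_eq_sum_range (fun i : ℕ => ((i.factorial : ℝ) * ((n - i).factorial : ℝ))⁻¹)
      (n + 1), eq_div_iff (by positivity), Finset.sum_mul]
    have h2 := Nat.sum_range_choose n
    have h3 : ((∑ i ∈ Finset.range (n + 1), n.choose i : ℕ) : ℝ) = 2 ^ n := by
      rw [h2]; push_cast; rfl
    rw [← h3]
    push_cast
    refine Finset.sum_congr rfl fun i hi => ?_
    rw [Finset.mem_range] at hi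
    rw [Nat.cast_choose ℝ (by omega : i ≤ n), div_eq_mul_inv, mul_comm]
  · intro v hv
    by_contra hn'
    apply hv
    refine FF_out hs h hn hψ v fun i e => hn' ?_
    rw [e]
    simp

end

end Pool.Agent.J4.H51.JC
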