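import Pool.Agent.Q134.SV.Rac

/-!
Walls of right-angled Coxeter groups: a wall is given by an element `r = g s g⁻¹`; `Sep r g h` means
that the wall `r` separates `g` and `h`.
-/

set_option autoImplicit false

open scoped Classical

namespace Pool.Agent.J4.H51.JC

open Pool.Agent.W907.SG (W cox)
open Pool.Agent.Q134.SV

variable {V : Type} (G : SimpleGraph V)

theorem gen_conj (s : V) (r : W G) : gen G s * (gen G s * r * gen G s) * gen G s = r := by
  have h := gen_sq G s
  calc gen G s * (gen G s * r * gen G s) * gen G s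
      = (gen G s * gen G s) * r * (gen G s * gen G s) := by group
    _ = r := by rw [h, one_mul, mul_one]

theorem gen_conj_eq (s t : V) (r : W G) (h : gen G s * gen G t = gen G t * gen G s) :
    gen G s * r * gen G s = gen G t ↔ r = gen G t := by
  constructor
  · intro e
    rw [← gen_conj G s r, e, h, mul_assoc, gen_sq, mul_one]
  · rintro rfl
    rw [h, mul_assoc, gen_sq, mul_one]

/-- the permutation of a generator -/
noncomputable def UU (s : V) : Equiv.Perm (W G × ZMod 2) where
  toFun p := (gen G s * p.1 * gen G s, p.2 + if p.1 = gen G s then 1 else 0)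
  invFun p := (gen G s * p.1 * gen G s, p.2 + if p.1 = gen G s then 1 else 0)
  left_inv p := by
    obtain ⟨r, e⟩ := p
    simp only [gen_conj, gen_conj_eq G s s r rfl, Prod.mk.injEq, true_and]
    rw [add_assoc, CharTwo.add_self_eq_zero, add_zero]
  right_inv p := by
    obtain ⟨r, e⟩ := p
    simp only [gen_conj, gen_conj_eq G s s r rfl, Prod.mk.injEq, true_and]
    rw [add_assoc, CharTwo.add_self_eq_zero, add_zero]

theorem UU_apply (s : V) (r : W G) (e : ZMod 2) :
    UU G s (r, e) = (gen G s * r * gen G s, e + if r = gen G s then 1 else 0) := rfl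

theorem UU_sq (s : V) : UU G s * UU G s = 1 := by
  ext1 p
  exact (UU G s).left_inv p

theorem UU_comm (s t : V) (h : G.Adj s t) : UU G s * UU G t = UU G t * UU G s := by
  have hc := gen_comm G h
  ext1 p
  obtain ⟨r, e⟩ := p
  simp only [Equiv.Perm.coe_mul, Function.comp_apply, UU_apply, Prod.mk.injEq]
  constructor
  · calc gen G s * (gen G t * r * gen G t) * gen G s
        = (gen G s * gen G t) * r * (gen G t * gen G s) := by group
      _ = (gen G t * gen G s) * r * (gen G s * gen G t) := by rw [hc]
      _ = gen G t * (gen G s * r * gen G s) * gen G t := by group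
  · simp only [gen_conj_eq G t s r hc.symm, gen_conj_eq G s t r hc]
    ring

/-- the action of `W` on `W × ZMod 2` -/
noncomputable def Ph : W G →* Equiv.Perm (W G × ZMod 2) := lft G (UU G) (UU_sq G) (UU_comm G)

theorem Ph_gen (s : V) : Ph G (gen G s) = UU G s := lft_gen _ _ _ _ _

/-- `1` iff the wall `r` separates `1` and `g⁻¹` -/
noncomputable def eta (g r : W G) : ZMod 2 := (Ph G g (r, 0)).2

theorem Ph_apply (g r : W G) (e : ZMod 2) : Ph G g (r, e) = (g * r * g⁻¹, e + eta G g r) := by
  refine gen_induction G (p := fun g => ∀ r e, Ph G g (r, e) = (g * r * g⁻¹, e + eta G g r)) g ?_ ?_ r e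
  · intro r e
    simp [eta]
  · intro g s ih r e
    have h1 : Ph G (gen G s * g) (r, e) = UU G s (Ph G g (r, e)) := by
      rw [map_mul, Ph_gen]; rfl
    have h2 : Ph G (gen G s * g) (r, 0) = UU G s (Ph G g (r, 0)) := by
      rw [map_mul, Ph_gen]; rfl
    have hs : (gen G s)⁻¹ = gen G s := inv_eq_of_mul_eq_one_left (gen_sq G s)
    rw [eta, h1, h2, ih r e, ih r 0, UU_apply, UU_apply]
    simp only [Prod.mk.injEq, mul_inv_rev, hs]
    constructor
    · group
    · ring

theorem gen_inv (s : V) : (gen G s)⁻¹ = gen G s := inv_eq_of_mul_eq_one_left (gen_sq G s)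

/-- the side of `g` -/
noncomputable def side (r g : W G) : ZMod 2 := eta G g⁻¹ r

theorem side_one (r : W G) : side G r 1 = 0 := by simp [side, eta]

theorem side_step (r g : W G) (s : V) :
    side G r (g * gen G s) = side G r g + if r = g * gen G s * g⁻¹ then 1 else 0 := by
  have h1 : Ph G (g * gen G s)⁻¹ (r, 0) = UU G s (Ph G g⁻¹ (r, 0)) := by
    rw [mul_inv_rev, gen_inv, map_mul, Ph_gen]; rfl
  rw [side, eta, h1, Ph_apply, UU_apply]
  simp only [zero_add, side, inv_inv]
  congr 1
  have : g⁻¹ * r * g = gen G s ↔ r = g * gen G s * g⁻¹ := by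
    constructor
    · intro h; rw [← h]; group
    · rintro rfl; group
  simp only [this]

/-- induction by multiplication on the right -/
theorem gen_induction_right {p : W G → Prop} (w : W G) (one : p 1)
    (mul : ∀ (w : W G) (x : V), p w → p (w * gen G x)) : p w :=
  (cox G).toCoxeterSystem.simple_induction_right w one mul

theorem side_mul (x r g : W G) :
    side G (x * r * x⁻¹) (x * g) = side G r g + side G (x * r * x⁻¹) x := by
  refine gen_induction_right G (p := fun g => side G (x * r * x⁻¹) (x * g) =
    side G r g + side G (x * r * x⁻¹) x) g ?_ ?_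
  · rw [mul_one, side_one, zero_add]
  · intro g s ih
    rw [← mul_assoc, side_step, side_step, ih]
    have : x * r * x⁻¹ = x * g * gen G s * (x * g)⁻¹ ↔ r = g * gen G s * g⁻¹ := by
      constructor
      · intro h
        have h2 : r = x⁻¹ * (x * r * x⁻¹) * x := by group
        rw [h2, h]; group
      · rintro rfl; group
    simp only [this]
    ring

/-- the wall `r` separates `g` and `h` -/
def Sep (r g h : W G) : Prop := side G r g ≠ side G r h

variable {G}

theorem sep_self (r g : W G) : ¬ Sep G r g g := fun h => h rfl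

theorem sep_comm {r g h : W G} : Sep G r g h ↔ Sep G r h g := ne_comm

theorem sep_tri (r g h k : W G) : Sep G r g k ↔ ¬ (Sep G r g h ↔ Sep G r h k) := by
  unfold Sep
  generalize side G r g = a
  generalize side G r h = b
  generalize side G r k = c
  revert a b c
  decide

theorem sep_step (r g : W G) (s : V) : Sep G r g (g * gen G s) ↔ r = g * gen G s * g⁻¹ := by
  unfold Sep
  rw [side_step]
  by_cases h : r = g * gen G s * g⁻¹
  · simp [h]
  · simp [h]

theorem sep_mul (x r g h : W G) : Sep G (x * r * x⁻¹) (x * g) (x * h) ↔ Sep G r g h := by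
  unfold Sep
  rw [side_mul, side_mul, Ne, Ne, add_left_inj]

variable (G) in
/-- the wall at `g` of type `s` -/
noncomputable def wl (g : W G) (s : V) : W G := g * gen G s * g⁻¹

theorem sep_wl (r g : W G) (s : V) : Sep G r g (g * gen G s) ↔ r = wl G g s := sep_step r g s

theorem sep_wl_self (g : W G) (s : V) : Sep G (wl G g s) g (g * gen G s) := (sep_wl _ _ _).2 rfl

theorem wl_mul (x g : W G) (s : V) : wl G (x * g) s = x * wl G g s * x⁻¹ := by
  unfold wl; group

theorem wl_one (s : V) : wl G 1 s = gen G s := by simp [wl]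

theorem wl_gen_self (g : W G) (s : V) : wl G (g * gen G s) s = wl G g s := by
  unfold wl
  rw [mul_inv_rev, gen_inv, mul_assoc g, gen_sq, mul_one, ← mul_assoc]

theorem wl_gen_adj (g : W G) {s t : V} (h : G.Adj s t) : wl G (g * gen G t) s = wl G g s := by
  unfold wl
  rw [mul_inv_rev, gen_inv, mul_assoc g, ← gen_comm G h]
  simp only [mul_assoc]
  rw [← mul_assoc (gen G t) (gen G t), gen_sq, one_mul]

/-! ### labels -/

variable (G) in
/-- the number of the letters `s` modulo `2` -/
noncomputable def lbl (s : V) : W G →* Multiplicative (ZMod 2) :=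
  lft G (fun t => if t = s then Multiplicative.ofAdd 1 else 1)
    (fun t => by
      split_ifs
      · rw [← ofAdd_add]; rfl
      · rfl)
    (fun _ _ _ => mul_comm _ _)

theorem lbl_gen (s t : V) : lbl G s (gen G t) = if t = s then Multiplicative.ofAdd 1 else 1 :=
  lft_gen _ _ _ _ _

theorem wl_label {g h : W G} {s t : V} (e : wl G g s = wl G h t) : s = t := by
  have h1 : lbl G s (wl G g s) = lbl G s (wl G h t) := by rw [e]
  unfold wl at h1
  simp only [map_mul, map_inv, mul_inv_cancel_comm, lbl_gen, if_true] at h1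
  by_contra hne
  rw [if_neg (Ne.symm hne)] at h1
  exact absurd h1 (by decide)

theorem gen_ne_one (s : V) : gen G s ≠ 1 := by
  intro h
  have h1 := lbl_gen (G := G) s s
  rw [h, map_one, if_pos rfl] at h1
  exact absurd h1 (by decide)

theorem wl_ne_one (g : W G) (s : V) : wl G g s ≠ 1 := by
  intro h
  apply gen_ne_one (G := G) s
  have : gen G s = g⁻¹ * wl G g s * g := by unfold wl; group
  rw [this, h]; group

/-! ### length -/

variable (G) in
/-- the length -/
noncomputable def len (g : W G) : ℕ := (cox G).toCoxeterSystem.length g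

variable (G) in
/-- the product of a word -/
noncomputable def wp (l : List V) : W G := (l.map (gen G)).prod

theorem wp_eq (l : List V) : wp G l = (cox G).toCoxeterSystem.wordProd l := rfl

theorem len_wp_le (l : List V) : len G (wp G l) ≤ l.length :=
  (cox G).toCoxeterSystem.length_wordProd_le l

theorem exists_word (g : W G) : ∃ l : List V, l.length = len G g ∧ g = wp G l := by
  obtain ⟨l, h1, h2⟩ := (cox G).toCoxeterSystem.exists_isReduced g
  refine ⟨l, ?_, h2⟩
  rw [len, h2]
  exact h1.symm

theorem len_one : len G 1 = 0 := (cox G).toCoxeterSystem.length_one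

theorem len_eq_zero {g : W G} : len G g = 0 ↔ g = 1 := (cox G).toCoxeterSystem.length_eq_zero_iff

theorem wp_nil : wp G [] = 1 := rfl

theorem wp_cons (s : V) (l : List V) : wp G (s :: l) = gen G s * wp G l := rfl

theorem wp_concat (l : List V) (s : V) : wp G (l ++ [s]) = wp G l * gen G s := by
  simp [wp]

theorem len_gen_mul (s : V) (g : W G) :
    len G (gen G s * g) = len G g + 1 ∨ len G (gen G s * g) + 1 = len G g :=
  (cox G).toCoxeterSystem.length_simple_mul g s

theorem len_mul_gen (g : W G) (s : V) :
    len G (g * gen G s) = len G g + 1 ∨ len G (g * gen G s) + 1 = len G g :=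
  (cox G).toCoxeterSystem.length_mul_simple g s

theorem len_inv (g : W G) : len G g⁻¹ = len G g := (cox G).toCoxeterSystem.length_inv g

/-- exchange for words -/
theorem exch_word (r : W G) (l : List V) :
    Sep G r 1 (wp G l) → ∃ l' : List V, l'.length + 1 = l.length ∧ r * wp G l = wp G l' := by
  induction l using List.reverseRecOn with
  | nil => intro h; exact absurd h (sep_self _ _)
  | append_singleton l a ih =>
    intro h
    rw [wp_concat] at h ⊢
    rw [sep_tri _ _ (wp G l)] at h
    by_cases hr : r = wp G l * gen G a * (wp G l)⁻¹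
    · refine ⟨l, by simp, ?_⟩
      rw [hr]
      calc wp G l * gen G a * (wp G l)⁻¹ * (wp G l * gen G a)
          = wp G l * (gen G a * gen G a) := by group
        _ = wp G l := by rw [gen_sq, mul_one]
    · rw [sep_step] at h
      obtain ⟨l', h1, h2⟩ := ih (by tauto)
      refine ⟨l' ++ [a], by simp; omega, ?_⟩
      rw [← mul_assoc, h2, wp_concat]

/-- the exchange property -/
theorem exch {r g : W G} (h : Sep G r 1 g) : len G (r * g) < len G g := by
  obtain ⟨l, hl, rfl⟩ := exists_word g
  obtain ⟨l', h1, h2⟩ := exch_word r l h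
  rw [h2, ← hl]
  have := len_wp_le (G := G) l'
  omega

theorem sep_gen_mul (s : V) (g : W G) : Sep G (gen G s) 1 (gen G s * g) ↔ ¬ Sep G (gen G s) 1 g := by
  have h1 := sep_mul (gen G s) (gen G s) (gen G s) g
  have h2 : gen G s * gen G s * (gen G s)⁻¹ = gen G s := by group
  rw [h2, gen_sq] at h1
  rw [h1, sep_tri _ _ 1]
  have h3 : Sep G (gen G s) (gen G s) 1 := by
    rw [sep_comm]
    have := sep_wl_self (G := G) 1 s
    rwa [wl_one, one_mul] at this
  tauto

/-- the descents -/
theorem desc_iff (s : V) (g : W G) : Sep G (gen G s) 1 g ↔ len G (gen G s * g) < len G g := by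
  constructor
  · exact exch
  · intro h
    by_contra hn
    have h1 := (sep_gen_mul s g).2 hn
    have h2 := exch h1
    rw [← mul_assoc, gen_sq, one_mul] at h2
    omega

theorem desc_len {s : V} {g : W G} (h : Sep G (gen G s) 1 g) : len G (gen G s * g) + 1 = len G g := by
  have := (desc_iff s g).1 h
  rcases len_gen_mul s g with h1 | h1 <;> omega

theorem exists_desc {g : W G} (hg : g ≠ 1) : ∃ s, Sep G (gen G s) 1 g := by
  obtain ⟨l, hl, rfl⟩ := exists_word g
  cases l with
  | nil => exact absurd wp_nil hg
  | cons a l =>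
    refine ⟨a, ?_⟩
    rw [desc_iff, wp_cons, ← mul_assoc, gen_sq, one_mul]
    have := len_wp_le (G := G) l
    rw [wp_cons] at hl
    rw [← hl]
    simp
    omega

/-! ### the dihedral subgroups -/

variable (G) in
/-- alternating products -/
noncomputable def alt (a b : V) : ℕ → W G
  | 0 => 1
  | k + 1 => gen G a * alt b a k

/-- the next letter -/
def nx (a b : V) : ℕ → V
  | 0 => a
  | k + 1 => nx b a k

theorem alt_succ (k : ℕ) : ∀ a b : V, alt G a b (k + 1) = alt G a b k * gen G (nx a b k) := by
  induction k with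
  | zero => intro a b; simp [alt, nx]
  | succ k ih =>
    intro a b
    rw [alt, ih b a, ← mul_assoc]
    rfl

theorem wl_alt (k : ℕ) : ∀ a b : V, wl G (alt G a b k) (nx a b k) =
    gen G a * (gen G b * gen G a) ^ k := by
  induction k with
  | zero => intro a b; simp [alt, nx, wl]
  | succ k ih =>
    intro a b
    change wl G (gen G a * alt G b a k) (nx b a k) = _
    rw [wl_mul, ih b a, gen_inv]
    have : ∀ (x y : W G), x * (y * (x * y) ^ k) * x = x * (y * x) ^ (k + 1) := by
      intro x y
      rw [mul_assoc, mul_assoc y, mul_pow_mul, pow_succ']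
      simp only [mul_assoc]
    exact this _ _

theorem alt_ne {a b : V} (hab : a ≠ b) (hn : ¬ G.Adj a b) (k : ℕ) :
    gen G b * (gen G a * gen G b) ^ k ≠ gen G a := by
  let ρ : V → Equiv.Perm ℤ := fun t => if t = a then Equiv.neg ℤ else
    if t = b then Equiv.subLeft 1 else 1
  have hρ2 : ∀ x, ρ x * ρ x = 1 := by
    intro x
    simp only [ρ]
    split_ifs
    · ext y; simp
    · ext y; simp
    · rfl
  have hρc : ∀ x y, G.Adj x y → ρ x * ρ y = ρ y * ρ x := by
    intro x y hxy
    simp only [ρ]
    by_cases h1 : x = a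
    · subst h1
      have h2 : y ≠ b := by rintro rfl; exact hn hxy
      rw [if_pos rfl, if_neg hxy.ne', if_neg h2, mul_one, one_mul]
    · by_cases h2 : x = b
      · subst h2
        have h3 : y ≠ a := by rintro rfl; exact hn hxy.symm
        rw [if_neg h1, if_pos rfl, if_neg h3, if_neg hxy.ne', mul_one, one_mul]
      · rw [if_neg h1, if_neg h2, mul_one, one_mul]
  intro h
  have h1 : (lft G ρ hρ2 hρc) (gen G b * (gen G a * gen G b) ^ k) 0 =
      (lft G ρ hρ2 hρc) (gen G a) 0 := by rw [h]
  simp only [map_mul, map_pow, lft_gen] at h1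
  have ha : ρ a = Equiv.neg ℤ := by simp [ρ]
  have hb : ρ b = Equiv.subLeft 1 := by simp [ρ, Ne.symm hab]
  rw [ha, hb] at h1
  have h2 : ∀ k : ℕ, ((Equiv.neg ℤ * Equiv.subLeft 1 : Equiv.Perm ℤ) ^ k) 0 = -(k : ℤ) := by
    intro k
    induction k with
    | zero => simp
    | succ k ih =>
      rw [pow_succ', Equiv.Perm.mul_apply, ih]
      simp
      ring
  rw [Equiv.Perm.mul_apply, h2] at h1
  simp at h1
  omega

theorem sep_alt {a b : V} (hab : a ≠ b) (hn : ¬ G.Adj a b) (k : ℕ) :
    ¬ Sep G (gen G a) 1 (alt G b a k) := by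
  induction k with
  | zero => exact sep_self _ _
  | succ k ih =>
    rw [alt_succ, sep_tri _ _ (alt G b a k), sep_wl, wl_alt]
    have := alt_ne hab hn k
    have h2 : ¬ gen G a = gen G b * (gen G a * gen G b) ^ k := fun e => this e.symm
    tauto

theorem desc_alt {a b : V} (hab : a ≠ b) (hn : ¬ G.Adj a b) {g : W G} (ha : Sep G (gen G a) 1 g)
    (hb : Sep G (gen G b) 1 g) (k : ℕ) : len G ((alt G a b k)⁻¹ * g) + k ≤ len G g ∧
      len G ((alt G b a k)⁻¹ * g) + k ≤ len G g := by
  have key : ∀ (a b : V), a ≠ b → ¬ G.Adj a b → Sep G (gen G a) 1 g → ∀ k : ℕ,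
      len G ((alt G b a k)⁻¹ * g) + k ≤ len G g →
      len G ((alt G a b (k + 1))⁻¹ * g) + (k + 1) ≤ len G g := by
    intro a b hab hn ha k h
    set y := (alt G b a k)⁻¹ with hy
    have e1 : (alt G a b (k + 1))⁻¹ * g = (y * gen G a * y⁻¹) * (y * g) := by
      rw [alt, mul_inv_rev, gen_inv, hy]; group
    have h1 : Sep G (y * gen G a * y⁻¹) y (y * g) := by
      have := (sep_mul y (gen G a) 1 g).2 ha
      rwa [mul_one] at this
    have h2 : ¬ Sep G (y * gen G a * y⁻¹) 1 y := by
      have := sep_mul y (gen G a) (alt G b a k) 1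
      rw [hy, inv_mul_cancel, mul_one, ← hy] at this
      rw [this, sep_comm]
      exact sep_alt hab hn k
    have h3 : Sep G (y * gen G a * y⁻¹) 1 (y * g) := by
      rw [sep_tri _ _ y]; tauto
    have h4 := exch h3
    rw [e1]
    omega
  induction k with
  | zero => simp [alt]
  | succ k ih =>
    exact ⟨key a b hab hn ha k ih.2, key b a hab.symm (fun h => hn h.symm) hb k ih.1⟩

/-- descents commute -/
theorem desc_adj {a b : V} {g : W G} (ha : Sep G (gen G a) 1 g) (hb : Sep G (gen G b) 1 g)
    (hab : a ≠ b) : G.Adj a b := by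
  by_contra hn
  have := (desc_alt hab hn ha hb (len G g + 1)).1
  omega

/-! ### the centraliser -/

theorem sep_shift (x k g h : W G) : Sep G k (x * g) (x * h) ↔ Sep G (x⁻¹ * k * x) g h := by
  rw [← sep_mul x (x⁻¹ * k * x)]
  have : x * (x⁻¹ * k * x) * x⁻¹ = k := by group
  rw [this]

theorem wl_shift (x u : W G) (t : V) : x⁻¹ * wl G u t * x = wl G (x⁻¹ * u) t := by
  rw [wl_mul, inv_inv]

theorem cent {s : V} (n : ℕ) : ∀ p : W G, len G p ≤ n → p * gen G s = gen G s * p →
    ∀ (u : W G) (t : V), ¬ G.Adj s t → wl G u t ≠ gen G s → ¬ Sep G (wl G u t) 1 p := by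
  induction n with
  | zero =>
    intro p hp _ u t _ _
    rw [len_eq_zero.1 (Nat.le_zero.1 hp)]
    exact sep_self _ _
  | succ n ih =>
    intro p hp hc u t hst hk
    by_cases hp1 : p = 1
    · rw [hp1]; exact sep_self _ _
    -- removal of a letter
    have rem : ∀ a : V, Sep G (gen G a) 1 p → gen G a * gen G s = gen G s * gen G a →
        wl G u t ≠ gen G a → ¬ Sep G (wl G u t) 1 p := by
      intro a ha hcas hka
      have h1 : len G (gen G a * p) ≤ n := by have := desc_len ha; omega
      have h2 : gen G a * p * gen G s = gen G s * (gen G a * p) := by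
        rw [mul_assoc, hc, ← mul_assoc, hcas, mul_assoc]
      have h3 : wl G ((gen G a)⁻¹ * u) t ≠ gen G s := by
        intro e
        apply hk
        rw [← wl_shift, gen_inv] at e
        have := gen_conj G a (wl G u t)
        rw [e] at this
        rw [← this, hcas, mul_assoc, gen_sq, mul_one]
      have h4 := ih _ h1 h2 _ t hst h3
      rw [← wl_shift, ← sep_shift] at h4
      rw [sep_tri _ _ (gen G a)]
      have h5 : gen G a * (gen G a * p) = p := by rw [← mul_assoc, gen_sq, one_mul]
      rw [h5, mul_one] at h4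
      have h6 : ¬ Sep G (wl G u t) 1 (gen G a) := by
        have := sep_wl (G := G) (wl G u t) 1 a
        rw [one_mul, wl_one] at this
        rw [this]
        exact hka
      tauto
    by_cases hs : Sep G (gen G s) 1 p
    · exact rem s hs rfl hk
    · obtain ⟨a, ha⟩ := exists_desc hp1
      have has : a ≠ s := by rintro rfl; exact hs ha
      have h1 : Sep G (gen G s) 1 (gen G s * p) := (sep_gen_mul s p).2 hs
      have h2 : Sep G (gen G a) 1 (gen G s * p) := by
        rw [desc_iff, ← hc, ← mul_assoc]
        have h3 := desc_len ha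
        have h4 := len_mul_gen (gen G a * p) s
        have h5 := desc_len h1
        rw [← mul_assoc, gen_sq, one_mul] at h5
        rw [hc]
        omega
      have hadj := desc_adj h2 h1 has
      refine rem a ha (gen_comm G hadj) ?_
      intro e
      rw [← wl_one (G := G) a] at e
      have := wl_label e
      subst this
      exact hst hadj.symm

/-- two points which are not separated by `k`, but by `r`: there is an edge on the same side of `k`
with wall `r` -/
theorem path_cross {k r : W G} (n : ℕ) : ∀ x y : W G, len G (x⁻¹ * y) ≤ n → ¬ Sep G k x y →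
    Sep G r x y → ∃ (p : W G) (a : V), ¬ Sep G k x p ∧ ¬ Sep G k x (p * gen G a) ∧ r = wl G p a := by
  induction n with
  | zero =>
    intro x y h _ h2
    have := len_eq_zero.1 (Nat.le_zero.1 h)
    have hxy : y = x := by
      have h3 : y = x * (x⁻¹ * y) := by group
      rw [h3, this, mul_one]
    rw [hxy] at h2
    exact absurd h2 (sep_self _ _)
  | succ n ih =>
    intro x y h h1 h2
    have hne : x⁻¹ * y ≠ 1 := by
      intro e
      have hxy : y = x := by
        have h3 : y = x * (x⁻¹ * y) := by group
        rw [h3, e, mul_one]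
      rw [hxy] at h2
      exact absurd h2 (sep_self _ _)
    obtain ⟨a, ha⟩ := exists_desc hne
    have h3 : Sep G (wl G x a) x y := by
      have := (sep_mul x (gen G a) 1 (x⁻¹ * y)).2 ha
      rwa [mul_one, mul_inv_cancel_left] at this
    have hka : ¬ Sep G k x (x * gen G a) := by
      rw [sep_wl]
      rintro rfl
      exact h1 h3
    by_cases hr : r = wl G x a
    · exact ⟨x, a, sep_self _ _, hka, hr⟩
    · have h4 : len G ((x * gen G a)⁻¹ * y) ≤ n := by
        rw [mul_inv_rev, gen_inv, mul_assoc]
        have := desc_len ha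
        omega
      have h5 : ¬ Sep G k (x * gen G a) y := by
        have := sep_tri k x (x * gen G a) y
        tauto
      have h6 : Sep G r (x * gen G a) y := by
        have h7 := sep_tri r x (x * gen G a) y
        rw [sep_wl] at h7
        tauto
      obtain ⟨p, b, hp, hpb, hpr⟩ := ih _ _ h4 h5 h6
      refine ⟨p, b, ?_, ?_, hpr⟩
      · have := sep_tri k x (x * gen G a) p
        tauto
      · have := sep_tri k x (x * gen G a) (p * gen G b)
        tauto

/-- walls with types which are not adjacent do not cross: the base point is `1` -/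
theorem nocross_one {s t : V} {u g : W G} (hst : ¬ G.Adj s t) (hk : wl G u t ≠ gen G s)
    (hg : Sep G (wl G u t) 1 g) : ¬ Sep G (gen G s) u g := by
  intro h
  obtain ⟨u', h1, h2⟩ : ∃ u', Sep G (wl G u t) 1 u' ∧ Sep G (gen G s) u' g := by
    by_cases hu : Sep G (wl G u t) 1 u
    · exact ⟨u, hu, h⟩
    · refine ⟨u * gen G t, ?_, ?_⟩
      · have := sep_tri (wl G u t) 1 u (u * gen G t)
        have h3 := sep_wl_self u t
        tauto
      · have := sep_tri (gen G s) u (u * gen G t) g
        rw [sep_wl] at this
        have h3 : ¬ gen G s = wl G u t := fun e => hk e.symm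
        tauto
  have h3 : ¬ Sep G (wl G u t) u' g := by
    have := sep_tri (wl G u t) 1 u' g
    tauto
  obtain ⟨p, a, hp, -, hpa⟩ := path_cross _ u' g le_rfl h3 h2
  have ha : s = a := by
    rw [← wl_one (G := G) s] at hpa
    exact wl_label hpa
  subst ha
  have hc : p * gen G s = gen G s * p := by
    nth_rewrite 2 [hpa]
    unfold wl
    group
  have h4 := cent _ p le_rfl hc u t hst hk
  have := sep_tri (wl G u t) 1 u' p
  tauto

/-- walls with types which are not adjacent do not cross: if `wl u t` separates `v` and `g` then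
`wl v s` does not separate `u` and `g` -/
theorem nocross {s t : V} {u v g : W G} (hst : ¬ G.Adj s t) (hk : wl G u t ≠ wl G v s)
    (hg : Sep G (wl G u t) v g) : ¬ Sep G (wl G v s) u g := by
  have h1 := nocross_one (s := s) (t := t) (u := v⁻¹ * u) (g := v⁻¹ * g) hst (by
    intro e
    apply hk
    have h2 : u = v * (v⁻¹ * u) := by group
    rw [h2, wl_mul, e]
    rfl) (by
    rw [← wl_shift, ← sep_shift]
    simpa using hg)
  have h3 : v⁻¹ * wl G v s * v = gen G s := by unfold wl; group
  rw [← h3, ← sep_shift] at h1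
  simpa using h1

/-- directions from a vertex to a vertex commute -/
theorem dir_adj {s t : V} {v g : W G} (hs : Sep G (wl G v s) v g) (ht : Sep G (wl G v t) v g)
    (hst : s ≠ t) : G.Adj s t := by
  by_contra hn
  exact nocross hn (fun e => hst (wl_label e).symm) ht hs

theorem exists_dir {v g : W G} (h : v ≠ g) : ∃ s, Sep G (wl G v s) v g ∧
    len G ((v * gen G s)⁻¹ * g) < len G (v⁻¹ * g) := by
  have hne : v⁻¹ * g ≠ 1 := by
    intro e
    apply h
    have h3 : g = v * (v⁻¹ * g) := by group
    rw [h3, e, mul_one]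
  obtain ⟨a, ha⟩ := exists_desc hne
  refine ⟨a, ?_, ?_⟩
  · have := (sep_mul v (gen G a) 1 (v⁻¹ * g)).2 ha
    rwa [mul_one, mul_inv_cancel_left] at this
  · rw [mul_inv_rev, gen_inv, mul_assoc]
    exact (desc_iff _ _).1 ha

/-- the gate: if a wall separates `v` from all points of `S` then so does a wall at `v` -/
theorem gate {v : W G} (S : Set (W G)) (n : ℕ) : ∀ (p : W G) (s : V), len G (p⁻¹ * v) ≤ n →
    ¬ Sep G (wl G p s) p v → (∀ g ∈ S, Sep G (wl G p s) v g) → ∃ t, ∀ g ∈ S, Sep G (wl G v t) v g := by
  induction n with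
  | zero =>
    intro p s h _ h2
    have := len_eq_zero.1 (Nat.le_zero.1 h)
    have hxy : v = p := by
      have h3 : v = p * (p⁻¹ * v) := by group
      rw [h3, this, mul_one]
    subst hxy
    exact ⟨s, h2⟩
  | succ n ih =>
    intro p s h h1 h2
    by_cases hpv : p = v
    · subst hpv; exact ⟨s, h2⟩
    obtain ⟨u, hu, hlen⟩ := exists_dir hpv
    have hus : u ≠ s := by rintro rfl; exact h1 hu
    by_cases hadj : G.Adj s u
    · refine ih (p * gen G u) s (by omega) ?_ ?_
      · rw [wl_gen_adj p hadj]
        have h3 := sep_tri (wl G p s) p (p * gen G u) v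
        rw [sep_wl] at h3
        have h4 : ¬ wl G p s = wl G p u := fun e => hus (wl_label e).symm
        tauto
      · rw [wl_gen_adj p hadj]; exact h2
    · refine ih (p * gen G u) u (by omega) ?_ ?_
      · rw [wl_gen_self]
        have h3 := sep_tri (wl G p u) p (p * gen G u) v
        have h4 := sep_wl_self p u
        tauto
      · rw [wl_gen_self]
        intro g hg
        have h3 := h2 g hg
        have h4 : Sep G (wl G p s) p g := by
          have := sep_tri (wl G p s) p v g
          tauto
        have h5 : ¬ Sep G (wl G p u) p g := fun h6 => hadj (dir_adj h4 h6 hus.symm)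
        have := sep_tri (wl G p u) p v g
        tauto

end Pool.Agent.J4.H51.JC
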